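import Mathlib

/-!
# MP_3b7dc8_lc : constrained stationary epsilon-equilibria without short fixed-point encoding

For every rational `0 < ε < 1` and every polynomial `p` there is a turn-based game with payoff
constraints that has a stationary constrained `ε`-equilibrium all of whose probabilities are
dyadic, but such that each stationary constrained `ε`-equilibrium uses a probability `2 ^ (-2 ^ n)`
with `p N < 2 ^ n`, where `N` is the size of the instance.

The constraint (player `none` gets payoff at least `1`) forces the play to follow a main path; all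
other players then have payoff `0`, so that the value of any deviation has to be at most `ε`. The
deviations lead to coins controlled by player `none`, and their values impose exact inequalities
between products of the probabilities of the coins.
-/

namespace Pool.Agent.Results.MP_3b7dc8_lc.NoShortFixedPoint

/-- The kinds of vertices: owned by a player, stochastic, or terminal. -/
inductive Kind (P : Type)
  | player (i : P) : Kind P
  | chance : Kind P
  | terminal : Kind P

/-- A turn-based stochastic game with vertex set `V` and player set `P`. -/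
structure Game (V P : Type) where
  kind : V → Kind P
  edge : V → V → Prop
  prob : V → V → ℚ
  reward : V → P → ℚ
  start : V

/-- The requirements on a game: player vertices have an out-edge, stochastic vertices have a
rational distribution on their out-edges, and the rewards of the terminal vertices lie in
`[0, 1]`. -/
structure Game.Valid {V P : Type} [Fintype V] (G : Game V P) : Prop where
  out : ∀ u i, G.kind u = Kind.player i → ∃ v, G.edge u v
  prob_nonneg : ∀ u v, G.kind u = Kind.chance → 0 ≤ G.prob u v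
  prob_sum : ∀ u, G.kind u = Kind.chance → ∑ v, G.prob u v = 1
  prob_edge : ∀ u v, G.kind u = Kind.chance → G.prob u v ≠ 0 → G.edge u v
  reward_mem : ∀ t i, G.kind t = Kind.terminal → 0 ≤ G.reward t i ∧ G.reward t i ≤ 1

variable {V P : Type} [Fintype V] [Fintype P] [DecidableEq P]

/-- The function `d` is a distribution on the out-neighbours of `u`. -/
def IsDistOn (G : Game V P) (u : V) (d : V → ℝ) : Prop :=
  (∀ v, 0 ≤ d v) ∧ ∑ v, d v = 1 ∧ ∀ v, d v ≠ 0 → G.edge u v

/-- A stationary strategy profile: a distribution on the out-neighbours at each player vertex. -/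
def IsProfile (G : Game V P) (σ : V → V → ℝ) : Prop :=
  ∀ u i, G.kind u = Kind.player i → IsDistOn G u (σ u)

/-- A (history-dependent, randomized) strategy of player `i`: `τ h u` is a distribution on the
out-neighbours of `u`, where `h` lists the vertices visited before `u`. -/
def IsStrategy (G : Game V P) (i : P) (τ : List V → V → V → ℝ) : Prop :=
  ∀ h u, G.kind u = Kind.player i → IsDistOn G u (τ h u)

/-- The transition probabilities of the profile `σ`. -/
noncomputable def move (G : Game V P) (σ : V → V → ℝ) : List V → V → V → ℝ := fun _ u v =>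
  match G.kind u with
  | Kind.player _ => σ u v
  | Kind.chance => (G.prob u v : ℝ)
  | Kind.terminal => 0

/-- The transition probabilities when player `i` deviates from `σ` to the strategy `τ`. -/
noncomputable def moveDev (G : Game V P) (σ : V → V → ℝ) (i : P) (τ : List V → V → V → ℝ) :
    List V → V → V → ℝ := fun h u v =>
  match G.kind u with
  | Kind.player j => if j = i then τ h u v else σ u v
  | Kind.chance => (G.prob u v : ℝ)
  | Kind.terminal => 0

/-- The expected reward of player `i`, from the vertex `u` with history `h`, when the play is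
stopped after `k` steps (with reward `0` if no terminal vertex is reached by then). -/
noncomputable def value (G : Game V P) (S : List V → V → V → ℝ) (i : P) : ℕ → List V → V → ℝ
  | 0, _, u =>
    match G.kind u with
    | Kind.terminal => (G.reward u i : ℝ)
    | _ => 0
  | k + 1, h, u =>
    match G.kind u with
    | Kind.terminal => (G.reward u i : ℝ)
    | _ => ∑ v, S h u v * value G S i k (u :: h) v

/-- The expected payoff of player `i`. -/
noncomputable def payoff (G : Game V P) (S : List V → V → V → ℝ) (i : P) : ℝ :=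
  ⨆ k, value G S i k [] G.start

/-- The profile `σ` is a stationary `ε`-equilibrium: no player gains more than `ε` by any
deviation. -/
def IsEpsNE (G : Game V P) (ε : ℚ) (σ : V → V → ℝ) : Prop :=
  IsProfile G σ ∧ ∀ i τ, IsStrategy G i τ →
    payoff G (moveDev G σ i τ) i ≤ payoff G (move G σ) i + ε

/-- The profile satisfies the payoff constraints. -/
def Satisfies (G : Game V P) (x y : P → ℚ) (σ : V → V → ℝ) : Prop :=
  ∀ i, (x i : ℝ) ≤ payoff G (move G σ) i ∧ payoff G (move G σ) i ≤ y i

/-- All probabilities of the profile are integer multiples of `2 ^ (-L)`. -/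
def HasFixedPointSize (G : Game V P) (σ : V → V → ℝ) (L : ℕ) : Prop :=
  ∀ u i, G.kind u = Kind.player i → ∀ v, ∃ z : ℤ, σ u v = z / 2 ^ L

/-- The binary length of a rational number. -/
def bits (q : ℚ) : ℕ := Nat.size q.num.natAbs + Nat.size q.den + 1

/-- The binary length of an instance. -/
def inputSize (G : Game V P) (x y : P → ℚ) (ε : ℚ) : ℕ :=
  ∑ u, ∑ v, (1 + bits (G.prob u v)) + ∑ u, ∑ i, (1 + bits (G.reward u i)) +
    ∑ i, (bits (x i) + bits (y i)) + bits ε + 1

/-! ### Bounds for payoffs -/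

omit [Fintype P] [DecidableEq P] in
theorem value_le {G : Game V P} {S : List V → V → V → ℝ} {i : P} {U : V → ℝ}
    (hS : ∀ h u v, 0 ≤ S h u v) (hU0 : ∀ u, 0 ≤ U u)
    (hUt : ∀ u, G.kind u = Kind.terminal → (G.reward u i : ℝ) ≤ U u)
    (hUn : ∀ h u, G.kind u ≠ Kind.terminal → ∑ v, S h u v * U v ≤ U u) (k : ℕ) :
    ∀ h u, value G S i k h u ≤ U u := by
  induction k with
  | zero =>
    intro h u
    unfold value
    split
    · next hk => exact hUt u hk
    · exact hU0 u
  | succ k ih =>
    intro h u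
    unfold value
    split
    · next hk => exact hUt u hk
    · next hk =>
      refine le_trans (Finset.sum_le_sum fun v _ => ?_) (hUn h u hk)
      exact mul_le_mul_of_nonneg_left (ih _ v) (hS h u v)

omit [Fintype P] [DecidableEq P] in
theorem le_value {G : Game V P} {S : List V → V → V → ℝ} {i : P} {L : V → ℝ}
    (hS : ∀ h u v, 0 ≤ S h u v) (rank : V → ℕ)
    (hrank : ∀ h u v, G.kind u ≠ Kind.terminal → S h u v ≠ 0 → rank v < rank u)
    (hLt : ∀ u, G.kind u = Kind.terminal → L u ≤ (G.reward u i : ℝ))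
    (hLn : ∀ h u, G.kind u ≠ Kind.terminal → L u ≤ ∑ v, S h u v * L v) (k : ℕ) :
    ∀ h u, rank u ≤ k → L u ≤ value G S i k h u := by
  induction k with
  | zero =>
    intro h u hu
    unfold value
    split
    · next hk => exact hLt u hk
    · next hk =>
      refine (hLn h u hk).trans (le_of_eq ?_)
      apply Finset.sum_eq_zero
      intro v _
      by_contra hne
      have := hrank h u v hk (left_ne_zero_of_mul hne)
      omega
  | succ k ih =>
    intro h u hu
    unfold value
    split
    · next hk => exact hLt u hk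
    · next hk =>
      refine (hLn h u hk).trans (Finset.sum_le_sum fun v _ => ?_)
      by_cases h0 : S h u v = 0
      · rw [h0, zero_mul, zero_mul]
      · exact mul_le_mul_of_nonneg_left (ih _ v (by have := hrank h u v hk h0; omega)) (hS h u v)

omit [Fintype P] [DecidableEq P] in
theorem payoff_le {G : Game V P} {S : List V → V → V → ℝ} {i : P} {U : V → ℝ}
    (hS : ∀ h u v, 0 ≤ S h u v) (hU0 : ∀ u, 0 ≤ U u)
    (hUt : ∀ u, G.kind u = Kind.terminal → (G.reward u i : ℝ) ≤ U u)
    (hUn : ∀ h u, G.kind u ≠ Kind.terminal → ∑ v, S h u v * U v ≤ U u) :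
    payoff G S i ≤ U G.start :=
  ciSup_le fun k => value_le hS hU0 hUt hUn k _ _

omit [Fintype P] [DecidableEq P] in
theorem le_payoff {G : Game V P} (hG : G.Valid) {S : List V → V → V → ℝ} {i : P} {L : V → ℝ}
    (hS : ∀ h u v, 0 ≤ S h u v) (hS1 : ∀ h u, G.kind u ≠ Kind.terminal → ∑ v, S h u v = 1)
    (rank : V → ℕ)
    (hrank : ∀ h u v, G.kind u ≠ Kind.terminal → S h u v ≠ 0 → rank v < rank u)
    (hLt : ∀ u, G.kind u = Kind.terminal → L u ≤ (G.reward u i : ℝ))
    (hLn : ∀ h u, G.kind u ≠ Kind.terminal → L u ≤ ∑ v, S h u v * L v) :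
    L G.start ≤ payoff G S i := by
  have hb : BddAbove (Set.range fun k => value G S i k [] G.start) := by
    refine ⟨1, ?_⟩
    rintro _ ⟨k, rfl⟩
    refine value_le (U := fun _ => 1) hS (fun _ => zero_le_one) ?_ ?_ k _ _
    · intro u hu
      exact_mod_cast (hG.reward_mem u i hu).2
    · intro h u hu
      simp only [mul_one]
      exact (hS1 h u hu).le
  exact (le_value hS rank hrank hLt hLn _ _ _ (le_refl _)).trans (le_ciSup hb (rank G.start))

omit [Fintype P] in
theorem moveDev_nonneg {G : Game V P} (hG : G.Valid) {σ : V → V → ℝ} (hσ : IsProfile G σ) {i : P}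
    {τ : List V → V → V → ℝ} (hτ : IsStrategy G i τ) (h : List V) (u v : V) :
    0 ≤ moveDev G σ i τ h u v := by
  unfold moveDev
  split
  · next j hj =>
    split_ifs with hji
    · exact (hτ h u (by rw [hj, hji])).1 v
    · exact (hσ u j hj).1 v
  · next hk => exact_mod_cast hG.prob_nonneg u v hk
  · exact le_refl _

omit [Fintype P] in
theorem moveDev_sum {G : Game V P} (hG : G.Valid) {σ : V → V → ℝ} (hσ : IsProfile G σ) {i : P}
    {τ : List V → V → V → ℝ} (hτ : IsStrategy G i τ) (h : List V) (u : V)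
    (hu : G.kind u ≠ Kind.terminal) : ∑ v, moveDev G σ i τ h u v = 1 := by
  unfold moveDev
  cases hk : G.kind u with
  | player j =>
    by_cases hji : j = i
    · simp only [hji, if_true]
      exact (hτ h u (by rw [hk, hji])).2.1
    · simp only [hji, if_false]
      exact (hσ u j hk).2.1
  | chance =>
    show ∑ v, ((G.prob u v : ℚ) : ℝ) = 1
    exact_mod_cast hG.prob_sum u hk
  | terminal => exact absurd hk hu

omit [Fintype P] in
theorem moveDev_edge {G : Game V P} (hG : G.Valid) {σ : V → V → ℝ} (hσ : IsProfile G σ) {i : P}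
    {τ : List V → V → V → ℝ} (hτ : IsStrategy G i τ) (h : List V) (u v : V)
    (hne : moveDev G σ i τ h u v ≠ 0) : G.edge u v := by
  unfold moveDev at hne
  cases hk : G.kind u with
  | player j =>
    by_cases hji : j = i
    · simp only [hk, hji, if_true] at hne
      exact (hτ h u (by rw [hk, hji])).2.2 v hne
    · simp only [hk, hji, if_false] at hne
      exact (hσ u j hk).2.2 v hne
  | chance =>
    simp only [hk] at hne
    exact hG.prob_edge u v hk (by exact_mod_cast hne)
  | terminal =>
    simp only [hk] at hne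
    exact absurd rfl hne

omit [Fintype P] [DecidableEq P] in
theorem move_nonneg {G : Game V P} (hG : G.Valid) {σ : V → V → ℝ} (hσ : IsProfile G σ)
    (h : List V) (u v : V) : 0 ≤ move G σ h u v := by
  unfold move
  split
  · next j hj => exact (hσ u j hj).1 v
  · next hk => exact_mod_cast hG.prob_nonneg u v hk
  · exact le_refl _

omit [Fintype P] [DecidableEq P] in
theorem move_sum {G : Game V P} (hG : G.Valid) {σ : V → V → ℝ} (hσ : IsProfile G σ)
    (h : List V) (u : V) (hu : G.kind u ≠ Kind.terminal) : ∑ v, move G σ h u v = 1 := by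
  unfold move
  cases hk : G.kind u with
  | player j => exact (hσ u j hk).2.1
  | chance =>
    show ∑ v, ((G.prob u v : ℚ) : ℝ) = 1
    exact_mod_cast hG.prob_sum u hk
  | terminal => exact absurd hk hu

omit [Fintype P] [DecidableEq P] in
theorem move_edge {G : Game V P} (hG : G.Valid) {σ : V → V → ℝ} (hσ : IsProfile G σ)
    (h : List V) (u v : V) (hne : move G σ h u v ≠ 0) : G.edge u v := by
  unfold move at hne
  cases hk : G.kind u with
  | player j =>
    simp only [hk] at hne
    exact (hσ u j hk).2.2 v hne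
  | chance =>
    simp only [hk] at hne
    exact hG.prob_edge u v hk (by exact_mod_cast hne)
  | terminal =>
    simp only [hk] at hne
    exact absurd rfl hne

/-! ### The game -/

/-- The number of deviating players. -/
abbrev mm (n : ℕ) : ℕ := (n + 1) * 6

/-- The vertices: the main path, the vertex `R` and the gadgets, the coins with their leaves. -/
abbrev Vt (n : ℕ) : Type := Fin (mm n + 1) ⊕ Option (Fin (mm n)) ⊕ (Fin (n + 1) × Fin 8)

/-- The players. -/
abbrev Pl (n : ℕ) : Type := Option (Fin (mm n))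

variable {n : ℕ}

/-- The vertices of the main path; `w 0` is its end. -/
def w (l : Fin (mm n + 1)) : Vt n := Sum.inl l

/-- The reward vertex. -/
def R : Vt n := Sum.inr (Sum.inl none)

/-- The stochastic vertex of a gadget. -/
def s (j : Fin (mm n)) : Vt n := Sum.inr (Sum.inl (some j))

/-- The vertices of level `i`: the coins `0, 1, 2` and the leaves `3, ..., 7`. -/
def c (z : Fin (n + 1) × Fin 8) : Vt n := Sum.inr (Sum.inr z)

/-- The first coin of a gadget. -/
def e1 (l : Fin (n + 1)) (t : Fin 6) : Fin (n + 1) × Fin 8 :=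
  ![(l, 2), (l, 0), (l, 2), (l, 1), (l + 1, 2), (l + 1, 2)] t

/-- The second coin of a gadget. -/
def e2 (l : Fin (n + 1)) (t : Fin 6) : Fin (n + 1) × Fin 8 :=
  ![(l, 0), (l, 2), (l, 1), (l, 2), if l = Fin.last n then (l + 1, 2) else (l, 0),
    if l = Fin.last n then (l + 1, 2) else (l, 0)] t

/-- The leaves with a reward for a gadget. -/
def rew (l : Fin (n + 1)) (t : Fin 6) : Finset (Fin (n + 1) × Fin 8) :=
  ![{(l, 6), (l, 3)}, {(l, 4), (l, 5), (l, 7)}, {(l, 6), (l, 5)}, {(l, 4), (l, 7)},
    if l = Fin.last n then {(l + 1, 6)} else {(l + 1, 6), (l, 3), (l, 5)},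
    if l = Fin.last n then {(l + 1, 7)} else {(l + 1, 7), (l, 4)}] t

/-- The first coin of the gadget of player `j`. -/
def f1 (j : Fin (mm n)) : Fin (n + 1) × Fin 8 := e1 j.divNat j.modNat

/-- The second coin of the gadget of player `j`. -/
def f2 (j : Fin (mm n)) : Fin (n + 1) × Fin 8 := e2 j.divNat j.modNat

/-- The kinds of the vertices. -/
def kindV : Vt n → Kind (Pl n)
  | Sum.inl l => Fin.cases Kind.terminal (fun j => Kind.player (some j)) l
  | Sum.inr (Sum.inl none) => Kind.terminal
  | Sum.inr (Sum.inl (some _)) => Kind.chance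
  | Sum.inr (Sum.inr z) => if z.2 < 3 then Kind.player none else Kind.terminal

/-- The edges. -/
def edgeV : Vt n → Vt n → Prop
  | Sum.inl l, v => ∃ j : Fin (mm n), l = j.succ ∧ (v = w j.castSucc ∨ v = s j)
  | Sum.inr (Sum.inl none), _ => False
  | Sum.inr (Sum.inl (some j)), v => v = R ∨ v = c (f1 j) ∨ v = c (f2 j)
  | Sum.inr (Sum.inr z), v => (z.2 = 0 ∧ (v = c (z.1, 1) ∨ v = c (z.1, 3))) ∨
      (z.2 = 1 ∧ (v = c (z.1, 4) ∨ v = c (z.1, 5))) ∨
      (z.2 = 2 ∧ (v = c (z.1, 6) ∨ v = c (z.1, 7)))

/-- The probabilities. -/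
def probV (ε : ℚ) : Vt n → Vt n → ℚ
  | Sum.inr (Sum.inl (some j)), v =>
      (if v = R then ε else 0) + (if v = c (f1 j) then (1 - ε) / 2 else 0) +
        (if v = c (f2 j) then (1 - ε) / 2 else 0)
  | _, _ => 0

/-- The scale of the rewards. -/
def rho (ε : ℚ) : ℚ := 2 * ε / (1 + ε)

/-- The rewards. -/
def rewardV (ε : ℚ) : Vt n → Pl n → ℚ
  | Sum.inl l, none => if l = 0 then 1 else 0
  | Sum.inr (Sum.inl none), some _ => rho ε
  | Sum.inr (Sum.inr z), some j =>
      if z ∈ rew j.divNat j.modNat then rho ε else 0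
  | _, _ => 0

/-- The game. -/
def game (n : ℕ) (ε : ℚ) : Game (Vt n) (Pl n) where
  kind := kindV
  edge := edgeV
  prob := probV ε
  reward := rewardV ε
  start := w (Fin.last _)

theorem rho_pos {ε : ℚ} (h0 : 0 < ε) : 0 < rho ε := by
  unfold rho
  positivity

theorem rho_le {ε : ℚ} (h0 : 0 < ε) (h1 : ε < 1) : rho ε ≤ 1 := by
  unfold rho
  rw [div_le_one (by linarith)]
  linarith

theorem w_ne_s (l : Fin (mm n + 1)) (j : Fin (mm n)) : w l ≠ s j := by
  intro h
  cases h

theorem c_inj {z z' : Fin (n + 1) × Fin 8} : (c z : Vt n) = c z' ↔ z = z' := by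
  constructor
  · intro h
    exact Sum.inr.inj (Sum.inr.inj h)
  · rintro rfl
    rfl

theorem sum_prob (ε : ℚ) (j : Fin (mm n)) (f : Vt n → ℝ) :
    ∑ v, ((probV ε (s j) v : ℚ) : ℝ) * f v =
      ε * f R + (1 - ε) / 2 * (f (c (f1 j)) + f (c (f2 j))) := by
  have h : ∀ v, ((probV ε (s j) v : ℚ) : ℝ) * f v =
      (if v = R then (ε : ℝ) * f v else 0) +
      (if v = c (f1 j) then ((1 - ε) / 2 : ℝ) * f v else 0) +
      (if v = c (f2 j) then ((1 - ε) / 2 : ℝ) * f v else 0) := by
    intro v
    show (((if v = R then ε else 0) + (if v = c (f1 j) then (1 - ε) / 2 else 0) +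
        (if v = c (f2 j) then (1 - ε) / 2 else 0) : ℚ) : ℝ) * f v = _
    split_ifs <;> push_cast <;> ring
  rw [Finset.sum_congr rfl (fun v _ => h v), Finset.sum_add_distrib, Finset.sum_add_distrib]
  simp only [Finset.sum_ite_eq', Finset.mem_univ, if_true]
  ring

theorem e_ok (l : Fin (n + 1)) (t : Fin 6) : (e1 l t).2 < 3 ∧ (e2 l t).2 < 3 := by
  have h0 : ((0 : Fin 8) < 3) := by decide
  have h1 : ((1 : Fin 8) < 3) := by decide
  have h2 : ((2 : Fin 8) < 3) := by decide
  unfold e1 e2
  fin_cases t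
  · exact ⟨h2, h0⟩
  · exact ⟨h0, h2⟩
  · exact ⟨h2, h1⟩
  · exact ⟨h1, h2⟩
  · refine ⟨h2, ?_⟩
    show (if l = Fin.last n then ((l + 1, 2) : Fin (n + 1) × Fin 8) else (l, 0)).2 < 3
    split_ifs
    · exact h2
    · exact h0
  · refine ⟨h2, ?_⟩
    show (if l = Fin.last n then ((l + 1, 2) : Fin (n + 1) × Fin 8) else (l, 0)).2 < 3
    split_ifs
    · exact h2
    · exact h0

theorem lt_three : ∀ k : Fin 8, k < 3 → k = 0 ∨ k = 1 ∨ k = 2 := by decide

theorem kind_w_succ (j : Fin (mm n)) : kindV (w j.succ) = Kind.player (some j) := rfl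

theorem kind_w_zero : kindV (w (0 : Fin (mm n + 1))) = Kind.terminal := rfl

theorem kind_c_lt {z : Fin (n + 1) × Fin 8} (hz : z.2 < 3) : kindV (c z) = Kind.player none := by
  show (if z.2 < 3 then Kind.player none else Kind.terminal) = _
  rw [if_pos hz]

theorem kind_c_ge {z : Fin (n + 1) × Fin 8} (hz : ¬ z.2 < 3) : kindV (c z) = Kind.terminal := by
  show (if z.2 < 3 then Kind.player none else Kind.terminal) = _
  rw [if_neg hz]

/-- Case distinction for the vertices. -/
@[elab_as_elim]
theorem vcases {C : Vt n → Prop} (h0 : C (w 0)) (h1 : ∀ j : Fin (mm n), C (w j.succ)) (h2 : C R)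
    (h3 : ∀ j, C (s j)) (h4 : ∀ z, C (c z)) (u : Vt n) : C u := by
  rcases u with l | (_ | j) | z
  · refine Fin.cases ?_ ?_ l
    · exact h0
    · exact h1
  · exact h2
  · exact h3 j
  · exact h4 z

theorem game_valid {ε : ℚ} (h0 : 0 < ε) (h1 : ε < 1) : (game n ε).Valid := by
  constructor
  · intro u i
    refine vcases ?_ ?_ ?_ ?_ ?_ u
    · intro h
      cases h
    · intro j _
      exact ⟨s j, j, rfl, Or.inr rfl⟩
    · intro h
      cases h
    · intro j h
      cases h
    · intro z h
      have hz : z.2 < 3 := by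
        by_contra hcon
        have h' : kindV (c z) = Kind.player i := h
        rw [kind_c_ge hcon] at h'
        cases h'
      obtain ⟨l, k⟩ := z
      have : k = 0 ∨ k = 1 ∨ k = 2 := lt_three k hz
      rcases this with rfl | rfl | rfl
      · exact ⟨c (l, 1), Or.inl ⟨rfl, Or.inl rfl⟩⟩
      · exact ⟨c (l, 4), Or.inr (Or.inl ⟨rfl, Or.inl rfl⟩)⟩
      · exact ⟨c (l, 6), Or.inr (Or.inr ⟨rfl, Or.inl rfl⟩)⟩
  · intro u v
    refine vcases ?_ ?_ ?_ ?_ ?_ u
    · intro h
      cases h
    · intro j h
      cases h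
    · intro h
      cases h
    · intro j _
      show 0 ≤ (if v = R then ε else 0) + (if v = c (f1 j) then (1 - ε) / 2 else 0) +
        (if v = c (f2 j) then (1 - ε) / 2 else 0)
      have : 0 ≤ (1 - ε) / 2 := by linarith
      split_ifs <;> linarith
    · intro z h
      exfalso
      have h' : kindV (c z) = Kind.chance := h
      by_cases hz : z.2 < 3
      · rw [kind_c_lt hz] at h'
        cases h'
      · rw [kind_c_ge hz] at h'
        cases h'
  · intro u
    refine vcases ?_ ?_ ?_ ?_ ?_ u
    · intro h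
      cases h
    · intro j h
      cases h
    · intro h
      cases h
    · intro j _
      have h2 := sum_prob ε j (fun _ => 1)
      simp only [mul_one] at h2
      have h3 : ((∑ v, probV ε (s j) v : ℚ) : ℝ) = ((1 : ℚ) : ℝ) := by
        push_cast
        rw [h2]
        ring
      exact_mod_cast h3
    · intro z h
      exfalso
      have h' : kindV (c z) = Kind.chance := h
      by_cases hz : z.2 < 3
      · rw [kind_c_lt hz] at h'
        cases h'
      · rw [kind_c_ge hz] at h'
        cases h'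
  · intro u v
    refine vcases ?_ ?_ ?_ ?_ ?_ u
    · intro h
      cases h
    · intro j h
      cases h
    · intro h
      cases h
    · intro j _ hne
      by_contra hcon
      have hcon' : ¬ (v = R ∨ v = c (f1 j) ∨ v = c (f2 j)) := hcon
      push Not at hcon'
      apply hne
      show (if v = R then ε else 0) + (if v = c (f1 j) then (1 - ε) / 2 else 0) +
        (if v = c (f2 j) then (1 - ε) / 2 else 0) = 0
      rw [if_neg hcon'.1, if_neg hcon'.2.1, if_neg hcon'.2.2]
      norm_num
    · intro z h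
      exfalso
      have h' : kindV (c z) = Kind.chance := h
      by_cases hz : z.2 < 3
      · rw [kind_c_lt hz] at h'
        cases h'
      · rw [kind_c_ge hz] at h'
        cases h'
  · intro t i _
    have hr := rho_pos h0
    have hr' := rho_le h0 h1
    rcases t with l | (_ | j) | z <;> rcases i with _ | i
    · show 0 ≤ (if l = 0 then (1 : ℚ) else 0) ∧ (if l = 0 then (1 : ℚ) else 0) ≤ 1
      split_ifs <;> norm_num
    · exact ⟨le_refl _, zero_le_one⟩
    · exact ⟨le_refl _, zero_le_one⟩
    · exact ⟨hr.le, hr'⟩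
    · exact ⟨le_refl _, zero_le_one⟩
    · exact ⟨le_refl _, zero_le_one⟩
    · exact ⟨le_refl _, zero_le_one⟩
    · show 0 ≤ (if z ∈ rew i.divNat i.modNat then rho ε else 0) ∧
        (if z ∈ rew i.divNat i.modNat then rho ε else 0) ≤ 1
      split_ifs
      · exact ⟨hr.le, hr'⟩
      · exact ⟨le_refl _, zero_le_one⟩

/-- A rank function decreasing along the edges. -/
def rank : Vt n → ℕ
  | Sum.inl l => l + 3
  | Sum.inr (Sum.inl none) => 0
  | Sum.inr (Sum.inl (some _)) => 3
  | Sum.inr (Sum.inr z) => if z.2 = 0 then 2 else if z.2 < 3 then 1 else 0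

theorem rank_c_le (z : Fin (n + 1) × Fin 8) : rank (c z) ≤ 2 := by
  show (if z.2 = 0 then 2 else if z.2 < 3 then 1 else 0) ≤ 2
  split_ifs <;> norm_num

theorem rank_edge {u v : Vt n} (h : edgeV u v) : rank v < rank u := by
  revert h
  refine vcases ?_ ?_ ?_ ?_ ?_ u
  · rintro ⟨j, hj, _⟩
    exact absurd hj.symm (Fin.succ_ne_zero j)
  · rintro j ⟨j', hj, hv | hv⟩
    · rw [Fin.succ_injective _ hj, hv]
      show (j'.castSucc : ℕ) + 3 < (j'.succ : ℕ) + 3
      simp
    · rw [hv]
      show 3 < (j.succ : ℕ) + 3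
      simp
  · intro h
    cases h
  · rintro j (h | h | h)
    · rw [h]
      show 0 < 3
      norm_num
    · rw [h]
      exact (rank_c_le _).trans_lt (by show 2 < 3; norm_num)
    · rw [h]
      exact (rank_c_le _).trans_lt (by show 2 < 3; norm_num)
  · rintro ⟨l, k⟩ (⟨hk, h | h⟩ | ⟨hk, h | h⟩ | ⟨hk, h | h⟩) <;>
    · rw [h]
      have hk' : k = _ := hk
      rw [hk']
      simp [rank, c]

omit [Fintype P] [DecidableEq P] in
theorem two_point {G : Game V P} {u : V} {d : V → ℝ} (hd : IsDistOn G u d) {v1 v2 : V}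
    (hne : v1 ≠ v2) (he : ∀ v, G.edge u v → v = v1 ∨ v = v2) :
    (∀ f : V → ℝ, ∑ v, d v * f v = d v1 * f v1 + d v2 * f v2) ∧ d v1 + d v2 = 1 := by
  have key : ∀ f : V → ℝ, ∑ v, d v * f v = d v1 * f v1 + d v2 * f v2 := by
    intro f
    apply Fintype.sum_eq_add v1 v2 hne
    rintro v ⟨h1, h2⟩
    have : d v = 0 := by
      by_contra h
      rcases he v (hd.2.2 v h) with h' | h'
      · exact h1 h'
      · exact h2 h'
    rw [this, zero_mul]
  refine ⟨key, ?_⟩
  have := key (fun _ => 1)
  simp only [mul_one] at this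
  rw [← this, hd.2.1]

variable {ε : ℚ} {σ : Vt n → Vt n → ℝ}

theorem coinA (hσ : IsProfile (game n ε) σ) (l : Fin (n + 1)) :
    (∀ f : Vt n → ℝ, ∑ v, σ (c (l, 0)) v * f v =
      σ (c (l, 0)) (c (l, 1)) * f (c (l, 1)) + σ (c (l, 0)) (c (l, 3)) * f (c (l, 3))) ∧
      σ (c (l, 0)) (c (l, 1)) + σ (c (l, 0)) (c (l, 3)) = 1 := by
  apply two_point (hσ (c (l, 0)) none rfl)
  · intro h
    have : (1 : Fin 8) = 3 := (Prod.ext_iff.mp (c_inj.mp h)).2
    exact absurd this (by decide)
  · rintro v (⟨_, h⟩ | ⟨h, _⟩ | ⟨h, _⟩)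
    · exact h
    · exact absurd (show (0 : Fin 8) = 1 from h) (by decide)
    · exact absurd (show (0 : Fin 8) = 2 from h) (by decide)

theorem coinB (hσ : IsProfile (game n ε) σ) (l : Fin (n + 1)) :
    (∀ f : Vt n → ℝ, ∑ v, σ (c (l, 1)) v * f v =
      σ (c (l, 1)) (c (l, 4)) * f (c (l, 4)) + σ (c (l, 1)) (c (l, 5)) * f (c (l, 5))) ∧
      σ (c (l, 1)) (c (l, 4)) + σ (c (l, 1)) (c (l, 5)) = 1 := by
  apply two_point (hσ (c (l, 1)) none rfl)
  · intro h
    have : (4 : Fin 8) = 5 := (Prod.ext_iff.mp (c_inj.mp h)).2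
    exact absurd this (by decide)
  · rintro v (⟨h, _⟩ | ⟨_, h⟩ | ⟨h, _⟩)
    · exact absurd (show (1 : Fin 8) = 0 from h) (by decide)
    · exact h
    · exact absurd (show (1 : Fin 8) = 2 from h) (by decide)

theorem coinC (hσ : IsProfile (game n ε) σ) (l : Fin (n + 1)) :
    (∀ f : Vt n → ℝ, ∑ v, σ (c (l, 2)) v * f v =
      σ (c (l, 2)) (c (l, 6)) * f (c (l, 6)) + σ (c (l, 2)) (c (l, 7)) * f (c (l, 7))) ∧
      σ (c (l, 2)) (c (l, 6)) + σ (c (l, 2)) (c (l, 7)) = 1 := by
  apply two_point (hσ (c (l, 2)) none rfl)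
  · intro h
    have : (6 : Fin 8) = 7 := (Prod.ext_iff.mp (c_inj.mp h)).2
    exact absurd this (by decide)
  · rintro v (⟨h, _⟩ | ⟨h, _⟩ | ⟨_, h⟩)
    · exact absurd (show (2 : Fin 8) = 0 from h) (by decide)
    · exact absurd (show (2 : Fin 8) = 1 from h) (by decide)
    · exact h

/-- The indicator of a set of leaves. -/
noncomputable def ind (S : Finset (Fin (n + 1) × Fin 8)) (z : Fin (n + 1) × Fin 8) : ℝ :=
  if z ∈ S then 1 else 0

theorem ind_nonneg (S : Finset (Fin (n + 1) × Fin 8)) (z : Fin (n + 1) × Fin 8) :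
    0 ≤ ind S z := by
  unfold ind
  split_ifs <;> norm_num

theorem ind_pos {S : Finset (Fin (n + 1) × Fin 8)} {z : Fin (n + 1) × Fin 8} (h : z ∈ S) :
    ind S z = 1 := if_pos h

theorem ind_neg {S : Finset (Fin (n + 1) × Fin 8)} {z : Fin (n + 1) × Fin 8} (h : z ∉ S) :
    ind S z = 0 := if_neg h

/-- The probability to end in a leaf of the set `S` from a vertex of the coin area. -/
noncomputable def Hc (σ : Vt n → Vt n → ℝ) (S : Finset (Fin (n + 1) × Fin 8))
    (z : Fin (n + 1) × Fin 8) : ℝ :=
  ![σ (c (z.1, 0)) (c (z.1, 1)) * (σ (c (z.1, 1)) (c (z.1, 4)) * ind S (z.1, 4) +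
      σ (c (z.1, 1)) (c (z.1, 5)) * ind S (z.1, 5)) +
      σ (c (z.1, 0)) (c (z.1, 3)) * ind S (z.1, 3),
    σ (c (z.1, 1)) (c (z.1, 4)) * ind S (z.1, 4) + σ (c (z.1, 1)) (c (z.1, 5)) * ind S (z.1, 5),
    σ (c (z.1, 2)) (c (z.1, 6)) * ind S (z.1, 6) + σ (c (z.1, 2)) (c (z.1, 7)) * ind S (z.1, 7),
    ind S (z.1, 3), ind S (z.1, 4), ind S (z.1, 5), ind S (z.1, 6), ind S (z.1, 7)] z.2

theorem Hc_leaf (S : Finset (Fin (n + 1) × Fin 8)) (z : Fin (n + 1) × Fin 8) (hz : ¬ z.2 < 3) :
    Hc σ S z = ind S z := by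
  obtain ⟨l, k⟩ := z
  have : k = 3 ∨ k = 4 ∨ k = 5 ∨ k = 6 ∨ k = 7 := by
    have h : ∀ k : Fin 8, ¬ k < 3 → k = 3 ∨ k = 4 ∨ k = 5 ∨ k = 6 ∨ k = 7 := by decide
    exact h k hz
  rcases this with rfl | rfl | rfl | rfl | rfl <;> rfl

theorem Hc_harmonic (hσ : IsProfile (game n ε) σ) (S : Finset (Fin (n + 1) × Fin 8)) (r : ℝ)
    {F : Vt n → ℝ} (hF : ∀ z, F (c z) = r * Hc σ S z) (z : Fin (n + 1) × Fin 8) (hz : z.2 < 3) :
    ∑ v, σ (c z) v * F v = F (c z) := by
  obtain ⟨l, k⟩ := z
  rcases lt_three k hz with rfl | rfl | rfl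
  · rw [(coinA hσ l).1, hF, hF, hF]
    show _ * (r * (σ (c (l, 1)) (c (l, 4)) * ind S (l, 4) + σ (c (l, 1)) (c (l, 5)) *
      ind S (l, 5))) + _ * (r * ind S (l, 3)) =
      r * (σ (c (l, 0)) (c (l, 1)) * (σ (c (l, 1)) (c (l, 4)) * ind S (l, 4) +
      σ (c (l, 1)) (c (l, 5)) * ind S (l, 5)) +
      σ (c (l, 0)) (c (l, 3)) * ind S (l, 3))
    ring
  · rw [(coinB hσ l).1, hF, hF, hF]
    show _ * (r * ind S (l, 4)) + _ * (r * ind S (l, 5)) =
      r * (σ (c (l, 1)) (c (l, 4)) * ind S (l, 4) + σ (c (l, 1)) (c (l, 5)) * ind S (l, 5))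
    ring
  · rw [(coinC hσ l).1, hF, hF, hF]
    show _ * (r * ind S (l, 6)) + _ * (r * ind S (l, 7)) =
      r * (σ (c (l, 2)) (c (l, 6)) * ind S (l, 6) + σ (c (l, 2)) (c (l, 7)) * ind S (l, 7))
    ring

theorem Hc_nonneg (hσ : IsProfile (game n ε) σ) (S : Finset (Fin (n + 1) × Fin 8))
    (z : Fin (n + 1) × Fin 8) : 0 ≤ Hc σ S z := by
  have h0 : ∀ l v, 0 ≤ σ (c (l, 0)) v := fun l v => (hσ (c (l, 0)) none rfl).1 v
  have h1 : ∀ l v, 0 ≤ σ (c (l, 1)) v := fun l v => (hσ (c (l, 1)) none rfl).1 v
  have h2 : ∀ l v, 0 ≤ σ (c (l, 2)) v := fun l v => (hσ (c (l, 2)) none rfl).1 v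
  by_cases hz : z.2 < 3
  · obtain ⟨l, k⟩ := z
    rcases lt_three k hz with rfl | rfl | rfl
    · exact add_nonneg (mul_nonneg (h0 _ _) (add_nonneg (mul_nonneg (h1 _ _) (ind_nonneg _ _))
        (mul_nonneg (h1 _ _) (ind_nonneg _ _)))) (mul_nonneg (h0 _ _) (ind_nonneg _ _))
    · exact add_nonneg (mul_nonneg (h1 _ _) (ind_nonneg _ _)) (mul_nonneg (h1 _ _) (ind_nonneg _ _))
    · exact add_nonneg (mul_nonneg (h2 _ _) (ind_nonneg _ _)) (mul_nonneg (h2 _ _) (ind_nonneg _ _))
  · rw [Hc_leaf S z hz]
    exact ind_nonneg _ _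

/-- The value of the gadget of player `j`. -/
noncomputable def Fg (ε : ℚ) (σ : Vt n → Vt n → ℝ) (j : Fin (mm n)) : ℝ :=
  ε * rho ε + (1 - ε) / 2 * (rho ε * Hc σ (rew j.divNat j.modNat) (f1 j) +
    rho ε * Hc σ (rew j.divNat j.modNat) (f2 j))

theorem reward_c (ε : ℚ) (j : Fin (mm n)) (z : Fin (n + 1) × Fin 8) :
    ((rewardV ε (c z) (some j) : ℚ) : ℝ) = rho ε * ind (rew j.divNat j.modNat) z := by
  show (((if z ∈ rew j.divNat j.modNat then rho ε else 0 : ℚ)) : ℝ) = _
  unfold ind
  split_ifs <;> simp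

/-- The strategy of player `j` that moves to her gadget. -/
noncomputable def tau (j : Fin (mm n)) : List (Vt n) → Vt n → Vt n → ℝ :=
  fun _ _ v => if v = s j then 1 else 0

theorem kind_eq_some {u : Vt n} {j : Fin (mm n)} (h : kindV u = Kind.player (some j)) :
    u = w j.succ := by
  revert h
  refine vcases ?_ ?_ ?_ ?_ ?_ u
  · intro h
    cases h
  · intro j' h
    have h' : Kind.player (some j') = Kind.player (some j) := h
    injection h' with h'
    injection h' with h'
    rw [h']
  · intro h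
    cases h
  · intro j h
    cases h
  · intro z h
    by_cases hz : z.2 < 3
    · rw [kind_c_lt hz] at h
      cases h
    · rw [kind_c_ge hz] at h
      cases h

theorem tau_strategy (j : Fin (mm n)) : IsStrategy (game n ε) (some j) (tau j) := by
  intro h u hu
  rw [kind_eq_some hu]
  refine ⟨?_, ?_, ?_⟩
  · intro v
    unfold tau
    split_ifs <;> norm_num
  · unfold tau
    simp
  · intro v hv
    unfold tau at hv
    have : v = s j := by
      by_contra hcon
      rw [if_neg hcon] at hv
      exact hv rfl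
    rw [this]
    exact ⟨j, rfl, Or.inr rfl⟩

theorem dev_payoff (h0 : 0 < ε) (h1 : ε < 1) (hσ : IsProfile (game n ε) σ) (j : Fin (mm n))
    (hpath : ∀ l : Fin (mm n), ∀ f : Vt n → ℝ, ∑ v, σ (w l.succ) v * f v = f (w l.castSucc)) :
    Fg ε σ j ≤ payoff (game n ε) (moveDev (game n ε) σ (some j) (tau j)) (some j) := by
  have hG : (game n ε).Valid := game_valid h0 h1
  have hr := rho_pos h0
  have h0' : (0 : ℝ) < ε := by exact_mod_cast h0
  have h1' : (ε : ℝ) < 1 := by exact_mod_cast h1
  have hr' : (0 : ℝ) < rho ε := by exact_mod_cast hr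
  have hFg : ∀ j', 0 ≤ Fg ε σ j' := by
    intro j'
    unfold Fg
    have ha := Hc_nonneg hσ (rew j'.divNat j'.modNat) (f1 j')
    have hb := Hc_nonneg hσ (rew j'.divNat j'.modNat) (f2 j')
    have : (0 : ℝ) ≤ (1 - ε) / 2 := by linarith
    positivity
  set L : Vt n → ℝ := fun u => match u with
    | Sum.inl l => if j.succ ≤ l then Fg ε σ j else 0
    | Sum.inr (Sum.inl none) => rho ε
    | Sum.inr (Sum.inl (some j')) => if j' = j then Fg ε σ j else 0
    | Sum.inr (Sum.inr z) => rho ε * Hc σ (rew j.divNat j.modNat) z with hL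
  have hLstart : L (game n ε).start = Fg ε σ j := by
    show (if j.succ ≤ Fin.last _ then Fg ε σ j else 0) = _
    rw [if_pos (Fin.le_last _)]
  rw [← hLstart]
  apply le_payoff hG (moveDev_nonneg hG hσ (tau_strategy j))
    (moveDev_sum hG hσ (tau_strategy j)) rank
  · intro h u v _ hne
    exact rank_edge (moveDev_edge hG hσ (tau_strategy j) h u v hne)
  · intro u
    refine vcases ?_ ?_ ?_ ?_ ?_ u
    · intro _
      show (if j.succ ≤ 0 then Fg ε σ j else 0) ≤ _
      rw [if_neg (by rw [Fin.le_zero_iff]; exact Fin.succ_ne_zero j)]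
      exact_mod_cast (hG.reward_mem (w 0) (some j) rfl).1
    · intro j' h
      cases h
    · intro _
      exact le_refl _
    · intro j' h
      cases h
    · intro z hz
      have hz' : ¬ z.2 < 3 := by
        intro hcon
        have h' : kindV (c z) = Kind.terminal := hz
        rw [kind_c_lt hcon] at h'
        cases h'
      show rho ε * Hc σ (rew j.divNat j.modNat) z ≤ ((rewardV ε (c z) (some j) : ℚ) : ℝ)
      rw [reward_c, Hc_leaf _ z hz']
  · intro h u
    refine vcases ?_ ?_ ?_ ?_ ?_ u
    · intro h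
      exact absurd rfl h
    · intro j' _
      by_cases hj : j' = j
      · subst hj
        have : ∀ v, moveDev (game n ε) σ (some j') (tau j') h (w j'.succ) v =
            if v = s j' then 1 else 0 := by
          intro v
          show (if some j' = some j' then tau j' h (w j'.succ) v else σ (w j'.succ) v) = _
          rw [if_pos rfl]
          rfl
        simp only [this, ite_mul, one_mul, zero_mul, Finset.sum_ite_eq', Finset.mem_univ, if_true]
        show (if j'.succ ≤ j'.succ then Fg ε σ j' else 0) ≤ (if j' = j' then Fg ε σ j' else 0)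
        rw [if_pos (le_refl _), if_pos rfl]
      · have : ∀ v, moveDev (game n ε) σ (some j) (tau j) h (w j'.succ) v = σ (w j'.succ) v := by
          intro v
          show (if some j' = some j then tau j h (w j'.succ) v else σ (w j'.succ) v) = _
          rw [if_neg]
          intro hcon
          exact hj (Option.some_injective _ hcon)
        simp only [this]
        rw [hpath]
        show (if j.succ ≤ j'.succ then Fg ε σ j else 0) ≤
          (if j.succ ≤ j'.castSucc then Fg ε σ j else 0)
        have := hFg j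
        by_cases hle : j.succ ≤ j'.succ
        · have hle' : j.succ ≤ j'.castSucc := by
            rw [Fin.le_def] at hle ⊢
            have hne : (j' : ℕ) ≠ j := fun h => hj (Fin.ext h)
            simp only [Fin.val_succ, Fin.val_castSucc] at hle ⊢
            omega
          rw [if_pos hle, if_pos hle']
        · rw [if_neg hle]
          split_ifs
          · exact this
          · exact le_refl _
    · intro h
      exact absurd rfl h
    · intro j' _
      have : ∀ v, moveDev (game n ε) σ (some j) (tau j) h (s j') v =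
          ((probV ε (s j') v : ℚ) : ℝ) := fun v => rfl
      simp only [this]
      rw [sum_prob]
      show (if j' = j then Fg ε σ j else 0) ≤ ε * rho ε + (1 - ε) / 2 *
        (rho ε * Hc σ (rew j.divNat j.modNat) (f1 j') + rho ε * Hc σ (rew j.divNat j.modNat) (f2 j'))
      split_ifs with hj
      · rw [hj]
        exact le_refl _
      · have ha := Hc_nonneg hσ (rew j.divNat j.modNat) (f1 j')
        have hb := Hc_nonneg hσ (rew j.divNat j.modNat) (f2 j')
        have : (0 : ℝ) ≤ (1 - ε) / 2 := by linarith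
        positivity
    · intro z hz
      have hz' : z.2 < 3 := by
        by_contra hcon
        exact hz (kind_c_ge hcon)
      have : ∀ v, moveDev (game n ε) σ (some j) (tau j) h (c z) v = σ (c z) v := by
        intro v
        unfold moveDev
        have hk : (game n ε).kind (c z) = Kind.player none := kind_c_lt hz'
        rw [hk]
        simp
      simp only [this]
      rw [Hc_harmonic hσ (rew j.divNat j.modNat) (rho ε) (fun _ => rfl) z hz']

theorem pathP (hσ : IsProfile (game n ε) σ) (l : Fin (mm n)) :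
    (∀ f : Vt n → ℝ, ∑ v, σ (w l.succ) v * f v =
      σ (w l.succ) (w l.castSucc) * f (w l.castSucc) + σ (w l.succ) (s l) * f (s l)) ∧
      σ (w l.succ) (w l.castSucc) + σ (w l.succ) (s l) = 1 := by
  apply two_point (hσ (w l.succ) (some l) rfl)
  · exact w_ne_s _ _
  · rintro v ⟨j, hj, h⟩
    rw [← Fin.succ_injective _ hj] at h
    exact h

theorem move_w (l : Fin (mm n)) (h : List (Vt n)) (v : Vt n) :
    move (game n ε) σ h (w l.succ) v = σ (w l.succ) v := rfl

theorem move_s (j : Fin (mm n)) (h : List (Vt n)) (v : Vt n) :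
    move (game n ε) σ h (s j) v = ((probV ε (s j) v : ℚ) : ℝ) := rfl

theorem move_c {z : Fin (n + 1) × Fin 8} (hz : z.2 < 3) (h : List (Vt n)) (v : Vt n) :
    move (game n ε) σ h (c z) v = σ (c z) v := by
  unfold move
  have hk : (game n ε).kind (c z) = Kind.player none := kind_c_lt hz
  rw [hk]

/-- If the player `none` gets at least `1`, the play follows the main path. -/
theorem path_forced (h0 : 0 < ε) (h1 : ε < 1) (hσ : IsProfile (game n ε) σ)
    (hpay : 1 ≤ payoff (game n ε) (move (game n ε) σ) none) (j : Fin (mm n)) :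
    σ (w j.succ) (s j) = 0 := by
  have hG : (game n ε).Valid := game_valid h0 h1
  by_contra hne
  have hnn : ∀ l v, 0 ≤ σ (w (Fin.succ l)) v := fun l v => (hσ (w l.succ) (some l) rfl).1 v
  have hpos : 0 < σ (w j.succ) (s j) := lt_of_le_of_ne (hnn j (s j)) (Ne.symm hne)
  have hd := (pathP hσ j).2
  have hd' := hnn j (w j.castSucc)
  set U : Vt n → ℝ := fun u => match u with
    | Sum.inl l => if j.succ ≤ l then 1 - σ (w j.succ) (s j) else 1
    | _ => 0 with hU
  have hUw : ∀ l : Fin (mm n + 1), U (w l) = if j.succ ≤ l then 1 - σ (w j.succ) (s j) else 1 :=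
    fun _ => rfl
  have hUs : ∀ l : Fin (mm n), U (s l) = 0 := fun _ => rfl
  have hUR : U (R : Vt n) = 0 := rfl
  have hUc : ∀ z : Fin (n + 1) × Fin 8, U (c z) = 0 := fun _ => rfl
  have key : payoff (game n ε) (move (game n ε) σ) none ≤ U (game n ε).start := by
    apply payoff_le (move_nonneg hG hσ)
    · intro u
      refine vcases ?_ ?_ ?_ ?_ ?_ u
      · rw [hUw]
        split_ifs <;> linarith
      · intro l
        rw [hUw]
        split_ifs <;> linarith
      · exact le_refl _
      · intro l
        exact le_refl _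
      · intro z
        exact le_refl _
    · intro u
      refine vcases ?_ ?_ ?_ ?_ ?_ u
      · intro _
        rw [hUw, if_neg (by rw [Fin.le_zero_iff]; exact Fin.succ_ne_zero j)]
        show (((if (0 : Fin (mm n + 1)) = 0 then 1 else 0 : ℚ)) : ℝ) ≤ 1
        simp
      · intro l h
        cases h
      · intro _
        rw [hUR]
        show (((0 : ℚ)) : ℝ) ≤ 0
        simp
      · intro l h
        cases h
      · intro z _
        rw [hUc]
        show (((0 : ℚ)) : ℝ) ≤ 0
        simp
    · intro h u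
      refine vcases ?_ ?_ ?_ ?_ ?_ u
      · intro h
        exact absurd rfl h
      · intro l _
        simp only [move_w]
        rw [(pathP hσ l).1, hUs, mul_zero, add_zero, hUw, hUw]
        have e1 := (pathP hσ l).2
        have e2 := hnn l (w l.castSucc)
        have e3 := hnn l (s l)
        by_cases hle : j.succ ≤ l.castSucc
        · have hle' : j.succ ≤ l.succ := hle.trans (Fin.castSucc_lt_succ).le
          rw [if_pos hle, if_pos hle']
          nlinarith
        · rw [if_neg hle, mul_one]
          by_cases hle' : j.succ ≤ l.succ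
          · rw [if_pos hle']
            have : l = j := by
              rw [Fin.le_def] at hle hle'
              simp only [Fin.val_succ, Fin.val_castSucc] at hle hle'
              apply Fin.ext
              omega
            subst this
            linarith
          · rw [if_neg hle']
            linarith
      · intro h
        exact absurd rfl h
      · intro l _
        simp only [move_s]
        rw [sum_prob, hUs, hUR, hUc, hUc]
        simp
      · intro z hz
        have hz' : z.2 < 3 := by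
          by_contra hcon
          exact hz (kind_c_ge hcon)
        simp only [move_c hz']
        rw [hUc]
        have := Hc_harmonic hσ ∅ 0 (F := U) (fun z => by rw [hUc]; simp) z hz'
        rw [this, hUc]
  have hstart : U (game n ε).start = 1 - σ (w j.succ) (s j) := by
    show (if j.succ ≤ Fin.last _ then 1 - σ (w j.succ) (s j) else 1) = _
    rw [if_pos (Fin.le_last _)]
  rw [hstart] at key
  linarith

/-- Along the main path the other players get nothing. -/
theorem payoff_some_le (h0 : 0 < ε) (h1 : ε < 1) (hσ : IsProfile (game n ε) σ)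
    (hpath : ∀ l : Fin (mm n), ∀ f : Vt n → ℝ, ∑ v, σ (w l.succ) v * f v = f (w l.castSucc))
    (j : Fin (mm n)) : payoff (game n ε) (move (game n ε) σ) (some j) ≤ 0 := by
  have hG : (game n ε).Valid := game_valid h0 h1
  have h1' : (ε : ℝ) < 1 := by exact_mod_cast h1
  set U : Vt n → ℝ := fun u => match u with
    | Sum.inl l => 0
    | _ => 1 with hU
  have hUw : ∀ l : Fin (mm n + 1), U (w l) = 0 := fun _ => rfl
  have hUs : ∀ l : Fin (mm n), U (s l) = 1 := fun _ => rfl
  have hUR : U (R : Vt n) = 1 := rfl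
  have hUc : ∀ z : Fin (n + 1) × Fin 8, U (c z) = 1 := fun _ => rfl
  have hU1 : ∀ u, U u ≤ 1 := by
    intro u
    refine vcases ?_ ?_ ?_ ?_ ?_ u
    · rw [hUw]; norm_num
    · intro l
      rw [hUw]; norm_num
    · exact le_refl _
    · intro l
      exact le_refl _
    · intro z
      exact le_refl _
  have key : payoff (game n ε) (move (game n ε) σ) (some j) ≤ U (game n ε).start := by
    apply payoff_le (move_nonneg hG hσ)
    · intro u
      refine vcases ?_ ?_ ?_ ?_ ?_ u
      · exact le_refl _
      · intro l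
        exact le_refl _
      · exact zero_le_one
      · intro l
        exact zero_le_one
      · intro z
        exact zero_le_one
    · intro u
      refine vcases ?_ ?_ ?_ ?_ ?_ u
      · intro _
        rw [hUw]
        show (((0 : ℚ)) : ℝ) ≤ 0
        simp
      · intro l h
        cases h
      · intro hk
        rw [hUR]
        exact_mod_cast (hG.reward_mem R (some j) hk).2
      · intro l h
        cases h
      · intro z hk
        rw [hUc]
        exact_mod_cast (hG.reward_mem (c z) (some j) hk).2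
    · intro h u
      refine vcases ?_ ?_ ?_ ?_ ?_ u
      · intro h
        exact absurd rfl h
      · intro l _
        simp only [move_w]
        rw [hpath, hUw, hUw]
      · intro h
        exact absurd rfl h
      · intro l hk
        rw [hUs, ← move_sum hG hσ h (s l) hk]
        apply Finset.sum_le_sum
        intro v _
        have := move_nonneg hG hσ h (s l) v
        nlinarith [hU1 v]
      · intro z hk
        rw [hUc, ← move_sum hG hσ h (c z) hk]
        apply Finset.sum_le_sum
        intro v _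
        have := move_nonneg hG hσ h (c z) v
        nlinarith [hU1 v]
  exact key

/-- The probabilities of the three coins of level `l`. -/
noncomputable def pA (σ : Vt n → Vt n → ℝ) (l : Fin (n + 1)) : ℝ := σ (c (l, 0)) (c (l, 1))
noncomputable def pB (σ : Vt n → Vt n → ℝ) (l : Fin (n + 1)) : ℝ := σ (c (l, 1)) (c (l, 4))
noncomputable def pC (σ : Vt n → Vt n → ℝ) (l : Fin (n + 1)) : ℝ := σ (c (l, 2)) (c (l, 6))

/-- The sum of the two probabilities in the gadget `(l, t)`. -/
noncomputable def gad (σ : Vt n → Vt n → ℝ) (l : Fin (n + 1)) (t : Fin 6) : ℝ :=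
  ![pC σ l + (1 - pA σ l), pA σ l + (1 - pC σ l), pC σ l + (1 - pB σ l), pB σ l + (1 - pC σ l),
    if l = Fin.last n then 2 * pC σ (l + 1) else pC σ (l + 1) + (1 - pA σ l * pB σ l),
    if l = Fin.last n then 2 * (1 - pC σ (l + 1)) else (1 - pC σ (l + 1)) + pA σ l * pB σ l] t

theorem HcA (S : Finset (Fin (n + 1) × Fin 8)) (l : Fin (n + 1)) : Hc σ S (l, 0) =
    σ (c (l, 0)) (c (l, 1)) * (σ (c (l, 1)) (c (l, 4)) * ind S (l, 4) +
      σ (c (l, 1)) (c (l, 5)) * ind S (l, 5)) +
      σ (c (l, 0)) (c (l, 3)) * ind S (l, 3) := rfl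

theorem HcB (S : Finset (Fin (n + 1) × Fin 8)) (l : Fin (n + 1)) : Hc σ S (l, 1) =
    σ (c (l, 1)) (c (l, 4)) * ind S (l, 4) + σ (c (l, 1)) (c (l, 5)) * ind S (l, 5) := rfl

theorem HcC (S : Finset (Fin (n + 1) × Fin 8)) (l : Fin (n + 1)) : Hc σ S (l, 2) =
    σ (c (l, 2)) (c (l, 6)) * ind S (l, 6) + σ (c (l, 2)) (c (l, 7)) * ind S (l, 7) := rfl

theorem gad_eq (hσ : IsProfile (game n ε) σ) (l : Fin (n + 1)) (t : Fin 6) :
    Hc σ (rew l t) (e1 l t) + Hc σ (rew l t) (e2 l t) = gad σ l t := by
  have a1 : ∀ l, σ (c (l, 0)) (c (l, 3)) = 1 - pA σ l := fun l => by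
    have := (coinA hσ l).2
    unfold pA
    linarith
  have a2 : ∀ l, σ (c (l, 1)) (c (l, 5)) = 1 - pB σ l := fun l => by
    have := (coinB hσ l).2
    unfold pB
    linarith
  have a3 : ∀ l, σ (c (l, 2)) (c (l, 7)) = 1 - pC σ l := fun l => by
    have := (coinC hσ l).2
    unfold pC
    linarith
  have b1 : ∀ l, σ (c (l, 0)) (c (l, 1)) = pA σ l := fun _ => rfl
  have b2 : ∀ l, σ (c (l, 1)) (c (l, 4)) = pB σ l := fun _ => rfl
  have b3 : ∀ l, σ (c (l, 2)) (c (l, 6)) = pC σ l := fun _ => rfl
  fin_cases t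
  · show Hc σ {(l, 6), (l, 3)} (l, 2) + Hc σ {(l, 6), (l, 3)} (l, 0) = pC σ l + (1 - pA σ l)
    rw [HcA, HcC, a1, a3, b1, b2, b3]
    simp [ind]
  · show Hc σ {(l, 4), (l, 5), (l, 7)} (l, 0) + Hc σ {(l, 4), (l, 5), (l, 7)} (l, 2) =
      pA σ l + (1 - pC σ l)
    rw [HcA, HcC, a1, a2, a3, b1, b2, b3]
    simp [ind]
  · show Hc σ {(l, 6), (l, 5)} (l, 2) + Hc σ {(l, 6), (l, 5)} (l, 1) = pC σ l + (1 - pB σ l)
    rw [HcB, HcC, a2, a3, b2, b3]
    simp [ind]
  · show Hc σ {(l, 4), (l, 7)} (l, 1) + Hc σ {(l, 4), (l, 7)} (l, 2) = pB σ l + (1 - pC σ l)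
    rw [HcB, HcC, a2, a3, b2, b3]
    simp [ind]
  · by_cases hl : l = Fin.last n
    · have hr : rew l 4 = {(l + 1, 6)} := by
        show (if l = Fin.last n then _ else _) = _
        rw [if_pos hl]
      have he1 : e1 l 4 = (l + 1, 2) := rfl
      have he2 : e2 l 4 = (l + 1, 2) := by
        show (if l = Fin.last n then _ else _) = _
        rw [if_pos hl]
      have hg : gad σ l 4 = 2 * pC σ (l + 1) := by
        show (if l = Fin.last n then _ else _) = _
        rw [if_pos hl]
      show Hc σ (rew l 4) (e1 l 4) + Hc σ (rew l 4) (e2 l 4) = gad σ l 4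
      rw [hr, he1, he2, hg, HcC, a3, b3]
      simp [ind]
      ring
    · have hr : rew l 4 = {(l + 1, 6), (l, 3), (l, 5)} := by
        show (if l = Fin.last n then _ else _) = _
        rw [if_neg hl]
      have he1 : e1 l 4 = (l + 1, 2) := rfl
      have he2 : e2 l 4 = (l, 0) := by
        show (if l = Fin.last n then _ else _) = _
        rw [if_neg hl]
      have hg : gad σ l 4 = pC σ (l + 1) + (1 - pA σ l * pB σ l) := by
        show (if l = Fin.last n then _ else _) = _
        rw [if_neg hl]
      show Hc σ (rew l 4) (e1 l 4) + Hc σ (rew l 4) (e2 l 4) = gad σ l 4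
      rw [hr, he1, he2, hg, HcC, HcA, a1, a2, a3, b1, b2, b3]
      simp [ind]
      ring
  · by_cases hl : l = Fin.last n
    · have hr : rew l 5 = {(l + 1, 7)} := by
        show (if l = Fin.last n then _ else _) = _
        rw [if_pos hl]
      have he1 : e1 l 5 = (l + 1, 2) := rfl
      have he2 : e2 l 5 = (l + 1, 2) := by
        show (if l = Fin.last n then _ else _) = _
        rw [if_pos hl]
      have hg : gad σ l 5 = 2 * (1 - pC σ (l + 1)) := by
        show (if l = Fin.last n then _ else _) = _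
        rw [if_pos hl]
      show Hc σ (rew l 5) (e1 l 5) + Hc σ (rew l 5) (e2 l 5) = gad σ l 5
      rw [hr, he1, he2, hg, HcC, a3, b3]
      simp [ind]
      ring
    · have hr : rew l 5 = {(l + 1, 7), (l, 4)} := by
        show (if l = Fin.last n then _ else _) = _
        rw [if_neg hl]
      have he1 : e1 l 5 = (l + 1, 2) := rfl
      have he2 : e2 l 5 = (l, 0) := by
        show (if l = Fin.last n then _ else _) = _
        rw [if_neg hl]
      have hg : gad σ l 5 = (1 - pC σ (l + 1)) + pA σ l * pB σ l := by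
        show (if l = Fin.last n then _ else _) = _
        rw [if_neg hl]
      show Hc σ (rew l 5) (e1 l 5) + Hc σ (rew l 5) (e2 l 5) = gad σ l 5
      rw [hr, he1, he2, hg, HcC, HcA, a1, a2, a3, b1, b2, b3]
      simp [ind]

/-- The value of a gadget in terms of the probabilities of the coins. -/
theorem Fg_eq (h0 : 0 < ε) (hσ : IsProfile (game n ε) σ) (j : Fin (mm n)) :
    Fg ε σ j = ε + ε * (1 - ε) / (1 + ε) * (gad σ j.divNat j.modNat - 1) := by
  have h0' : (0 : ℝ) < ε := by exact_mod_cast h0
  rw [← gad_eq hσ]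
  unfold Fg f1 f2 rho
  push_cast
  field_simp
  ring

theorem gad_le (h0 : 0 < ε) (h1 : ε < 1) (hNE : IsEpsNE (game n ε) ε σ)
    (hpay : 1 ≤ payoff (game n ε) (move (game n ε) σ) none) (j : Fin (mm n)) :
    gad σ j.divNat j.modNat ≤ 1 := by
  have h0' : (0 : ℝ) < ε := by exact_mod_cast h0
  have h1' : (ε : ℝ) < 1 := by exact_mod_cast h1
  have hσ := hNE.1
  have hpath : ∀ l : Fin (mm n), ∀ f : Vt n → ℝ,
      ∑ v, σ (w l.succ) v * f v = f (w l.castSucc) := by
    intro l f
    have hz := path_forced h0 h1 hσ hpay l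
    have h2 := (pathP hσ l).2
    rw [(pathP hσ l).1, hz, zero_mul, add_zero]
    rw [hz, add_zero] at h2
    rw [h2, one_mul]
  have e1 := dev_payoff h0 h1 hσ j hpath
  have e2 := hNE.2 (some j) (tau j) (tau_strategy j)
  have e3 := payoff_some_le h0 h1 hσ hpath j
  rw [Fg_eq h0 hσ] at e1
  by_contra hcon
  rw [not_le] at hcon
  have e4 : 0 < (ε : ℝ) * (1 - ε) / (1 + ε) := by
    apply div_pos (mul_pos h0' (by linarith)) (by linarith)
  have e5 := mul_pos e4 (sub_pos.mpr hcon)
  linarith

theorem gad_le' (h0 : 0 < ε) (h1 : ε < 1) (hNE : IsEpsNE (game n ε) ε σ)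
    (hpay : 1 ≤ payoff (game n ε) (move (game n ε) σ) none) (l : Fin (n + 1)) (t : Fin 6) :
    gad σ l t ≤ 1 := by
  have h := gad_le h0 h1 hNE hpay (finProdFinEquiv (l, t))
  have h2 := finProdFinEquiv.symm_apply_apply (l, t)
  have h3 : (finProdFinEquiv (l, t)).divNat = l := congrArg Prod.fst h2
  have h4 : (finProdFinEquiv (l, t)).modNat = t := congrArg Prod.snd h2
  rwa [h3, h4] at h

theorem succ_eq {i : ℕ} (hi : i < n) (h : i < n + 1) (h' : i + 1 < n + 1) :
    (⟨i, h⟩ : Fin (n + 1)) + 1 = ⟨i + 1, h'⟩ := by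
  apply Fin.ext
  rw [Fin.val_add_one_of_lt]
  rw [Fin.lt_def]
  simpa using hi

/-- In each constrained equilibrium the coin of level `i` has probability `2 ^ (-2 ^ i)`. -/
theorem pC_eq (h0 : 0 < ε) (h1 : ε < 1) (hNE : IsEpsNE (game n ε) ε σ)
    (hpay : 1 ≤ payoff (game n ε) (move (game n ε) σ) none) (i : ℕ) (hi : i < n + 1) :
    pC σ ⟨i, hi⟩ = (1 / 2) ^ (2 ^ i) := by
  have hg := gad_le' h0 h1 hNE hpay
  induction i with
  | zero =>
    have e4 := hg (Fin.last n) 4
    have e5 := hg (Fin.last n) 5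
    have g4 : gad σ (Fin.last n) 4 = 2 * pC σ (Fin.last n + 1) := by
      show (if Fin.last n = Fin.last n then _ else _) = _
      rw [if_pos rfl]
    have g5 : gad σ (Fin.last n) 5 = 2 * (1 - pC σ (Fin.last n + 1)) := by
      show (if Fin.last n = Fin.last n then _ else _) = _
      rw [if_pos rfl]
    have hz : (Fin.last n + 1 : Fin (n + 1)) = ⟨0, hi⟩ := by
      rw [Fin.last_add_one]
      rfl
    rw [g4, hz] at e4
    rw [g5, hz] at e5
    have h12 : (1 / 2 : ℝ) ^ (2 ^ 0) = 1 / 2 := by norm_num
    rw [h12]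
    linarith
  | succ i ih =>
    have hi' : i < n + 1 := by omega
    have hin : i < n := by omega
    have hne : (⟨i, hi'⟩ : Fin (n + 1)) ≠ Fin.last n := by
      intro h
      have := congrArg Fin.val h
      simp at this
      omega
    have e0 := hg ⟨i, hi'⟩ 0
    have e1 := hg ⟨i, hi'⟩ 1
    have e2 := hg ⟨i, hi'⟩ 2
    have e3 := hg ⟨i, hi'⟩ 3
    have e4 := hg ⟨i, hi'⟩ 4
    have e5 := hg ⟨i, hi'⟩ 5
    have g4 : gad σ ⟨i, hi'⟩ 4 =
        pC σ (⟨i, hi'⟩ + 1) + (1 - pA σ ⟨i, hi'⟩ * pB σ ⟨i, hi'⟩) := by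
      show (if _ = Fin.last n then _ else _) = _
      rw [if_neg hne]
    have g5 : gad σ ⟨i, hi'⟩ 5 =
        (1 - pC σ (⟨i, hi'⟩ + 1)) + pA σ ⟨i, hi'⟩ * pB σ ⟨i, hi'⟩ := by
      show (if _ = Fin.last n then _ else _) = _
      rw [if_neg hne]
    rw [g4, succ_eq hin hi' hi] at e4
    rw [g5, succ_eq hin hi' hi] at e5
    have e0' : pC σ ⟨i, hi'⟩ + (1 - pA σ ⟨i, hi'⟩) ≤ 1 := e0
    have e1' : pA σ ⟨i, hi'⟩ + (1 - pC σ ⟨i, hi'⟩) ≤ 1 := e1
    have e2' : pC σ ⟨i, hi'⟩ + (1 - pB σ ⟨i, hi'⟩) ≤ 1 := e2
    have e3' : pB σ ⟨i, hi'⟩ + (1 - pC σ ⟨i, hi'⟩) ≤ 1 := e3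
    have ha : pA σ ⟨i, hi'⟩ = pC σ ⟨i, hi'⟩ := by linarith
    have hb : pB σ ⟨i, hi'⟩ = pC σ ⟨i, hi'⟩ := by linarith
    rw [ha, hb, ih hi'] at e4 e5
    have : (1 / 2 : ℝ) ^ (2 ^ (i + 1)) = (1 / 2) ^ (2 ^ i) * (1 / 2) ^ (2 ^ i) := by
      rw [← pow_add]
      congr 1
      rw [pow_succ]
      ring
    rw [this]
    linarith

/-! ### The equilibrium -/

/-- The probability of level `l`. -/
noncomputable def xv (l : Fin (n + 1)) : ℝ := (1 / 2) ^ (2 ^ (l : ℕ))

/-- The targets of the coins. -/
def tgt (k : Fin 8) : Fin 8 × Fin 8 := ![(1, 3), (4, 5), (6, 7), (0, 1), (0, 1), (0, 1), (0, 1),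
  (0, 1)] k

/-- The equilibrium profile. -/
noncomputable def sg : Vt n → Vt n → ℝ
  | Sum.inl l, v => Fin.cases 0 (fun j => if v = w j.castSucc then 1 else 0) l
  | Sum.inr (Sum.inl _), _ => 0
  | Sum.inr (Sum.inr z), v => (if v = c (z.1, (tgt z.2).1) then xv z.1 else 0) +
      (if v = c (z.1, (tgt z.2).2) then 1 - xv z.1 else 0)

theorem xv_mem (l : Fin (n + 1)) : 0 ≤ xv l ∧ xv l ≤ 1 := by
  unfold xv
  exact ⟨by positivity, pow_le_one₀ (by norm_num) (by norm_num)⟩

theorem sg_w (l : Fin (mm n)) (v : Vt n) : sg (w l.succ) v = if v = w l.castSucc then 1 else 0 :=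
  rfl

theorem sg_c (z : Fin (n + 1) × Fin 8) (v : Vt n) :
    sg (c z) v = (if v = c (z.1, (tgt z.2).1) then xv z.1 else 0) +
      (if v = c (z.1, (tgt z.2).2) then 1 - xv z.1 else 0) := rfl

theorem sg_path (l : Fin (mm n)) (f : Vt n → ℝ) :
    ∑ v, sg (w l.succ) v * f v = f (w l.castSucc) := by
  simp only [sg_w, ite_mul, one_mul, zero_mul, Finset.sum_ite_eq', Finset.mem_univ, if_true]

theorem sg_profile (ε : ℚ) : IsProfile (game n ε) (sg : Vt n → Vt n → ℝ) := by
  intro u i
  refine vcases ?_ ?_ ?_ ?_ ?_ u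
  · intro h
    cases h
  · intro j _
    refine ⟨?_, ?_, ?_⟩
    · intro v
      rw [sg_w]
      split_ifs <;> norm_num
    · simp only [sg_w, Finset.sum_ite_eq', Finset.mem_univ, if_true]
    · intro v hv
      rw [sg_w] at hv
      have : v = w j.castSucc := by
        by_contra hcon
        rw [if_neg hcon] at hv
        exact hv rfl
      exact ⟨j, rfl, Or.inl this⟩
  · intro h
    cases h
  · intro j h
    cases h
  · intro z h
    have hz : z.2 < 3 := by
      by_contra hcon
      have h' : kindV (c z) = Kind.player i := h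
      rw [kind_c_ge hcon] at h'
      cases h'
    have hx := xv_mem z.1
    refine ⟨?_, ?_, ?_⟩
    · intro v
      rw [sg_c]
      have : 0 ≤ 1 - xv z.1 := by linarith [hx.2]
      split_ifs <;> linarith [hx.1]
    · simp only [sg_c, Finset.sum_add_distrib, Finset.sum_ite_eq', Finset.mem_univ, if_true]
      ring
    · intro v hv
      rw [sg_c] at hv
      have : v = c (z.1, (tgt z.2).1) ∨ v = c (z.1, (tgt z.2).2) := by
        by_contra hcon
        push Not at hcon
        rw [if_neg hcon.1, if_neg hcon.2] at hv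
        exact hv (add_zero 0)
      obtain ⟨l, k⟩ := z
      rcases lt_three k hz with rfl | rfl | rfl
      · exact Or.inl ⟨rfl, this⟩
      · exact Or.inr (Or.inl ⟨rfl, this⟩)
      · exact Or.inr (Or.inr ⟨rfl, this⟩)

theorem sg_pA (l : Fin (n + 1)) : pA sg l = xv l := by
  unfold pA
  rw [sg_c]
  have h : (c (l, 1) : Vt n) ≠ c (l, 3) := by
    intro h
    have : (1 : Fin 8) = 3 := (Prod.ext_iff.mp (c_inj.mp h)).2
    exact absurd this (by decide)
  show (if c (l, 1) = c (l, 1) then xv l else 0) + (if c (l, 1) = c (l, 3) then 1 - xv l else 0) = _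
  rw [if_pos rfl, if_neg h, add_zero]

theorem sg_pB (l : Fin (n + 1)) : pB sg l = xv l := by
  unfold pB
  rw [sg_c]
  have h : (c (l, 4) : Vt n) ≠ c (l, 5) := by
    intro h
    have : (4 : Fin 8) = 5 := (Prod.ext_iff.mp (c_inj.mp h)).2
    exact absurd this (by decide)
  show (if c (l, 4) = c (l, 4) then xv l else 0) + (if c (l, 4) = c (l, 5) then 1 - xv l else 0) = _
  rw [if_pos rfl, if_neg h, add_zero]

theorem sg_pC (l : Fin (n + 1)) : pC sg l = xv l := by
  unfold pC
  rw [sg_c]
  have h : (c (l, 6) : Vt n) ≠ c (l, 7) := by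
    intro h
    have : (6 : Fin 8) = 7 := (Prod.ext_iff.mp (c_inj.mp h)).2
    exact absurd this (by decide)
  show (if c (l, 6) = c (l, 6) then xv l else 0) + (if c (l, 6) = c (l, 7) then 1 - xv l else 0) = _
  rw [if_pos rfl, if_neg h, add_zero]

theorem sg_gad (l : Fin (n + 1)) (t : Fin 6) : gad sg l t = 1 := by
  unfold gad
  simp only [sg_pA, sg_pB, sg_pC]
  have hsq : l ≠ Fin.last n → xv (l + 1) = xv l * xv l := by
    intro hl
    have hl' : (l : ℕ) < n := by
      have := l.isLt
      have h2 : (l : ℕ) ≠ n := fun h => hl (Fin.ext (by simpa using h))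
      omega
    have h := succ_eq hl' l.isLt (by omega)
    have h' : l + 1 = ⟨(l : ℕ) + 1, by omega⟩ := h
    rw [h']
    unfold xv
    show (1 / 2 : ℝ) ^ (2 ^ ((l : ℕ) + 1)) = _
    rw [← pow_add]
    congr 1
    rw [pow_succ]
    ring
  have hlast : l = Fin.last n → xv (l + 1) = 1 / 2 := by
    rintro rfl
    rw [Fin.last_add_one]
    unfold xv
    norm_num
  fin_cases t
  · show xv l + (1 - xv l) = 1
    ring
  · show xv l + (1 - xv l) = 1
    ring
  · show xv l + (1 - xv l) = 1
    ring
  · show xv l + (1 - xv l) = 1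
    ring
  · show (if l = Fin.last n then 2 * xv (l + 1) else xv (l + 1) + (1 - xv l * xv l)) = 1
    split_ifs with hl
    · rw [hlast hl]
      norm_num
    · rw [hsq hl]
      ring
  · show (if l = Fin.last n then 2 * (1 - xv (l + 1)) else (1 - xv (l + 1)) + xv l * xv l) = 1
    split_ifs with hl
    · rw [hlast hl]
      norm_num
    · rw [hsq hl]
      ring

theorem sg_none_ge (h0 : 0 < ε) (h1 : ε < 1) :
    1 ≤ payoff (game n ε) (move (game n ε) sg) none := by
  have hG : (game n ε).Valid := game_valid h0 h1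
  have hσ := sg_profile (n := n) ε
  set L : Vt n → ℝ := fun u => match u with
    | Sum.inl _ => 1
    | _ => 0 with hL
  have hLw : ∀ l : Fin (mm n + 1), L (w l) = 1 := fun _ => rfl
  have hLs : ∀ l : Fin (mm n), L (s l) = 0 := fun _ => rfl
  have hLR : L (R : Vt n) = 0 := rfl
  have hLc : ∀ z : Fin (n + 1) × Fin 8, L (c z) = 0 := fun _ => rfl
  have hL0 : ∀ u, 0 ≤ L u := by
    intro u
    refine vcases ?_ ?_ ?_ ?_ ?_ u
    · exact zero_le_one
    · intro _
      exact zero_le_one
    · exact le_refl _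
    · intro _
      exact le_refl _
    · intro _
      exact le_refl _
  have : L (game n ε).start ≤ payoff (game n ε) (move (game n ε) sg) none := by
    apply le_payoff hG (move_nonneg hG hσ) (move_sum hG hσ) rank
    · intro h u v _ hne
      exact rank_edge (move_edge hG hσ h u v hne)
    · intro u
      refine vcases ?_ ?_ ?_ ?_ ?_ u
      · intro _
        show (1 : ℝ) ≤ (((if (0 : Fin (mm n + 1)) = 0 then 1 else 0 : ℚ)) : ℝ)
        simp
      · intro j h
        cases h
      · intro hk
        rw [hLR]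
        exact_mod_cast (hG.reward_mem R none hk).1
      · intro j h
        cases h
      · intro z hk
        rw [hLc]
        exact_mod_cast (hG.reward_mem (c z) none hk).1
    · intro h u
      refine vcases ?_ ?_ ?_ ?_ ?_ u
      · intro h
        exact absurd rfl h
      · intro l _
        simp only [move_w]
        rw [sg_path, hLw, hLw]
      · intro h
        exact absurd rfl h
      · intro l _
        rw [hLs]
        exact Finset.sum_nonneg fun v _ => mul_nonneg (move_nonneg hG hσ h _ v) (hL0 v)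
      · intro z _
        rw [hLc]
        exact Finset.sum_nonneg fun v _ => mul_nonneg (move_nonneg hG hσ h _ v) (hL0 v)
  exact this

omit [Fintype P] [DecidableEq P] in
theorem payoff_le_one {G : Game V P} (hG : G.Valid) {S : List V → V → V → ℝ} {i : P}
    (hS : ∀ h u v, 0 ≤ S h u v) (hS1 : ∀ h u, G.kind u ≠ Kind.terminal → ∑ v, S h u v = 1) :
    payoff G S i ≤ 1 := by
  have := payoff_le (G := G) (S := S) (i := i) (U := fun _ => 1) hS (fun _ => zero_le_one) ?_ ?_
  · exact this
  · intro u hu
    exact_mod_cast (hG.reward_mem u i hu).2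
  · intro h u hu
    simp only [mul_one]
    exact (hS1 h u hu).le

theorem sg_payoff_nonneg (h0 : 0 < ε) (h1 : ε < 1) (i : Pl n) :
    0 ≤ payoff (game n ε) (move (game n ε) sg) i := by
  have hG : (game n ε).Valid := game_valid h0 h1
  have hσ := sg_profile (n := n) ε
  have := le_payoff (i := i) (L := fun _ => 0) hG (move_nonneg hG hσ) (move_sum hG hσ) rank
    ?_ ?_ ?_
  · exact this
  · intro h u v _ hne
    exact rank_edge (move_edge hG hσ h u v hne)
  · intro u hu
    exact_mod_cast (hG.reward_mem u i hu).1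
  · intro h u _
    simp

theorem sg_dev (h0 : 0 < ε) (h1 : ε < 1) (j : Fin (mm n)) {τ : List (Vt n) → Vt n → Vt n → ℝ}
    (hτ : IsStrategy (game n ε) (some j) τ) :
    payoff (game n ε) (moveDev (game n ε) sg (some j) τ) (some j) ≤ ε := by
  have hG : (game n ε).Valid := game_valid h0 h1
  have hσ := sg_profile (n := n) ε
  have h0' : (0 : ℝ) < ε := by exact_mod_cast h0
  have h1' : (ε : ℝ) < 1 := by exact_mod_cast h1
  have hr' : (0 : ℝ) < rho ε := by exact_mod_cast rho_pos h0
  set U : Vt n → ℝ := fun u => match u with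
    | Sum.inl l => if j.succ ≤ l then (ε : ℝ) else 0
    | Sum.inr (Sum.inl none) => rho ε
    | Sum.inr (Sum.inl (some j')) => ε * rho ε + (1 - ε) / 2 *
        (rho ε * Hc sg (rew j.divNat j.modNat) (f1 j') +
          rho ε * Hc sg (rew j.divNat j.modNat) (f2 j'))
    | Sum.inr (Sum.inr z) => rho ε * Hc sg (rew j.divNat j.modNat) z with hU
  have hUw : ∀ l : Fin (mm n + 1), U (w l) = if j.succ ≤ l then (ε : ℝ) else 0 := fun _ => rfl
  have hUR : U (R : Vt n) = rho ε := rfl
  have hUs : ∀ j' : Fin (mm n), U (s j') = ε * rho ε + (1 - ε) / 2 *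
        (rho ε * Hc sg (rew j.divNat j.modNat) (f1 j') +
          rho ε * Hc sg (rew j.divNat j.modNat) (f2 j')) := fun _ => rfl
  have hUc : ∀ z : Fin (n + 1) × Fin 8,
      U (c z) = rho ε * Hc sg (rew j.divNat j.modNat) z := fun _ => rfl
  have hUsj : U (s j) = ε := by
    rw [hUs]
    have := Fg_eq h0 hσ j
    rw [sg_gad, sub_self, mul_zero, add_zero] at this
    exact this
  have hstart : U (game n ε).start = ε := by
    show (if j.succ ≤ Fin.last _ then (ε : ℝ) else 0) = _
    rw [if_pos (Fin.le_last _)]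
  rw [← hstart]
  apply payoff_le (moveDev_nonneg hG hσ hτ)
  · intro u
    refine vcases ?_ ?_ ?_ ?_ ?_ u
    · rw [hUw]
      split_ifs <;> linarith
    · intro l
      rw [hUw]
      split_ifs <;> linarith
    · rw [hUR]
      exact hr'.le
    · intro j'
      rw [hUs]
      have ha := Hc_nonneg hσ (rew j.divNat j.modNat) (f1 j')
      have hb := Hc_nonneg hσ (rew j.divNat j.modNat) (f2 j')
      have : (0 : ℝ) ≤ (1 - ε) / 2 := by linarith
      positivity
    · intro z
      rw [hUc]
      exact mul_nonneg hr'.le (Hc_nonneg hσ _ _)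
  · intro u
    refine vcases ?_ ?_ ?_ ?_ ?_ u
    · intro _
      rw [hUw, if_neg (by rw [Fin.le_zero_iff]; exact Fin.succ_ne_zero j)]
      show (((0 : ℚ)) : ℝ) ≤ 0
      simp
    · intro l h
      cases h
    · intro _
      exact le_refl _
    · intro l h
      cases h
    · intro z hz
      have hz' : ¬ z.2 < 3 := by
        intro hcon
        have h' : kindV (c z) = Kind.terminal := hz
        rw [kind_c_lt hcon] at h'
        cases h'
      show ((rewardV ε (c z) (some j) : ℚ) : ℝ) ≤ _
      rw [reward_c, hUc, Hc_leaf _ z hz']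
  · intro h u
    refine vcases ?_ ?_ ?_ ?_ ?_ u
    · intro h
      exact absurd rfl h
    · intro j' _
      by_cases hj : j' = j
      · subst hj
        have hd := hτ h (w j'.succ) rfl
        have hmv : ∀ v, moveDev (game n ε) sg (some j') τ h (w j'.succ) v =
            τ h (w j'.succ) v := by
          intro v
          show (if some j' = some j' then τ h (w j'.succ) v else sg (w j'.succ) v) = _
          rw [if_pos rfl]
        simp only [hmv]
        have h2 := two_point hd (w_ne_s j'.castSucc j') (by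
          rintro v ⟨l, hl, h⟩
          rw [← Fin.succ_injective _ hl] at h
          exact h)
        rw [h2.1, hUsj, hUw, hUw, if_pos (le_refl _), if_neg, mul_zero, zero_add]
        · have h3 := hd.1 (w j'.castSucc)
          have h4 : τ h (w j'.succ) (s j') ≤ 1 := by linarith [h2.2]
          nlinarith
        · rw [Fin.le_def]
          simp
      · have hmv : ∀ v, moveDev (game n ε) sg (some j) τ h (w j'.succ) v =
            sg (w j'.succ) v := by
          intro v
          show (if some j' = some j then τ h (w j'.succ) v else sg (w j'.succ) v) = _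
          rw [if_neg]
          intro hcon
          exact hj (Option.some_injective _ hcon)
        simp only [hmv]
        rw [sg_path, hUw, hUw]
        by_cases hle : j.succ ≤ j'.castSucc
        · rw [if_pos hle, if_pos (hle.trans (Fin.castSucc_lt_succ).le)]
        · rw [if_neg hle]
          split_ifs <;> linarith
    · intro h
      exact absurd rfl h
    · intro j' _
      have hmv : ∀ v, moveDev (game n ε) sg (some j) τ h (s j') v =
          ((probV ε (s j') v : ℚ) : ℝ) := fun v => rfl
      simp only [hmv]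
      rw [sum_prob, hUs, hUR, hUc, hUc]
    · intro z hz
      have hz' : z.2 < 3 := by
        by_contra hcon
        exact hz (kind_c_ge hcon)
      have hmv : ∀ v, moveDev (game n ε) sg (some j) τ h (c z) v = sg (c z) v := by
        intro v
        unfold moveDev
        have hk : (game n ε).kind (c z) = Kind.player none := kind_c_lt hz'
        rw [hk]
        simp
      simp only [hmv]
      rw [Hc_harmonic hσ (rew j.divNat j.modNat) (rho ε) (fun _ => rfl) z hz']

theorem sg_NE (h0 : 0 < ε) (h1 : ε < 1) : IsEpsNE (game n ε) ε sg := by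
  have hG : (game n ε).Valid := game_valid h0 h1
  have hσ := sg_profile (n := n) ε
  have h0' : (0 : ℝ) < ε := by exact_mod_cast h0
  refine ⟨hσ, ?_⟩
  rintro (_ | j) τ hτ
  · have h2 := payoff_le_one (i := (none : Pl n)) hG (moveDev_nonneg hG hσ hτ)
      (moveDev_sum hG hσ hτ)
    have h3 := sg_none_ge (n := n) h0 h1
    linarith
  · have h2 := sg_dev h0 h1 j hτ
    have h3 := sg_payoff_nonneg (n := n) h0 h1 (some j)
    linarith

/-- The lower payoff constraints. -/
def lo : Pl n → ℚ
  | none => 1
  | some _ => 0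

/-- The upper payoff constraints. -/
def hi : Pl n → ℚ := fun _ => 1

theorem sg_satisfies (h0 : 0 < ε) (h1 : ε < 1) : Satisfies (game n ε) lo hi sg := by
  have hG : (game n ε).Valid := game_valid h0 h1
  have hσ := sg_profile (n := n) ε
  intro i
  have h2 := payoff_le_one (i := i) hG (move_nonneg hG hσ) (move_sum hG hσ)
  refine ⟨?_, ?_⟩
  · rcases i with _ | j
    · show ((1 : ℚ) : ℝ) ≤ _
      have := sg_none_ge (n := n) h0 h1
      simpa using this
    · show ((0 : ℚ) : ℝ) ≤ _
      have := sg_payoff_nonneg (n := n) h0 h1 (some j)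
      simpa using this
  · show _ ≤ ((1 : ℚ) : ℝ)
    simpa using h2

theorem xv_int (l : Fin (n + 1)) : ∃ z : ℤ, xv l = z / 2 ^ (2 ^ n) := by
  have hl : 2 ^ (l : ℕ) ≤ 2 ^ n := Nat.pow_le_pow_right (by norm_num) (Nat.lt_succ_iff.mp l.isLt)
  refine ⟨2 ^ (2 ^ n - 2 ^ (l : ℕ)), ?_⟩
  unfold xv
  push_cast
  rw [eq_div_iff (by positivity), one_div, inv_pow]
  have : (2 : ℝ) ^ (2 ^ n) = 2 ^ (2 ^ n - 2 ^ (l : ℕ)) * 2 ^ (2 ^ (l : ℕ)) := by
    rw [← pow_add]
    congr 1
    omega
  rw [this]
  field_simp

theorem sg_fixed : HasFixedPointSize (game n ε) sg (2 ^ n) := by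
  have hint : ∀ z : ℤ, ∃ y : ℤ, (z : ℝ) = y / 2 ^ (2 ^ n) := by
    intro z
    refine ⟨z * 2 ^ (2 ^ n), ?_⟩
    push_cast
    field_simp
  intro u i
  refine vcases ?_ ?_ ?_ ?_ ?_ u
  · intro h
    cases h
  · intro j _ v
    rw [sg_w]
    split_ifs
    · simpa using hint 1
    · simpa using hint 0
  · intro h
    cases h
  · intro j h
    cases h
  · intro z _ v
    rw [sg_c]
    obtain ⟨y, hy⟩ := xv_int z.1
    obtain ⟨y1, hy1⟩ := hint 1
    split_ifs
    · refine ⟨y1, ?_⟩
      rw [← hy1]
      push_cast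
      ring
    · exact ⟨y, by rw [add_zero, hy]⟩
    · refine ⟨y1 - y, ?_⟩
      push_cast at hy1 ⊢
      rw [sub_div, ← hy, ← hy1]
      ring
    · exact ⟨0, by simp⟩

theorem fixed_large (h0 : 0 < ε) (h1 : ε < 1) (hNE : IsEpsNE (game n ε) ε σ)
    (hsat : Satisfies (game n ε) lo hi σ) {L : ℕ} (hL : HasFixedPointSize (game n ε) σ L) :
    2 ^ n ≤ L := by
  have hpay : 1 ≤ payoff (game n ε) (move (game n ε) σ) none := by
    have h : ((1 : ℚ) : ℝ) ≤ _ := (hsat none).1
    simpa using h
  have hp := pC_eq h0 h1 hNE hpay n (Nat.lt_succ_self n)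
  obtain ⟨z, hz⟩ := hL (c (⟨n, Nat.lt_succ_self n⟩, 2)) none rfl (c (⟨n, Nat.lt_succ_self n⟩, 6))
  have hz' : pC σ ⟨n, Nat.lt_succ_self n⟩ = z / 2 ^ L := hz
  rw [hp] at hz'
  by_contra hcon
  rw [not_le] at hcon
  have e1 : (z : ℝ) = (1 / 2) ^ (2 ^ n) * 2 ^ L := by
    rw [hz']
    field_simp
  have e2 : (0 : ℝ) < z := by
    rw [e1]
    positivity
  have e3 : (z : ℝ) < 1 := by
    rw [e1, one_div, inv_pow, inv_mul_lt_one₀ (by positivity)]
    exact pow_lt_pow_right₀ (by norm_num) hcon
  have e4 : 0 < z := by exact_mod_cast e2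
  have e5 : z < 1 := by exact_mod_cast e3
  omega

/-! ### The size of the instances -/

/-- A bound for the lengths of all numbers in the game. -/
def bound (ε : ℚ) : ℕ :=
  bits 0 + bits 1 + bits ε + bits ((1 - ε) / 2) + bits ((1 - ε) / 2 + (1 - ε) / 2) + bits (rho ε)

theorem bits_prob (u v : Vt n) : bits (probV ε u v) ≤ bound ε := by
  unfold bound
  refine vcases ?_ ?_ ?_ ?_ ?_ u
  · show bits 0 ≤ _
    omega
  · intro l
    show bits 0 ≤ _
    omega
  · show bits 0 ≤ _
    omega
  · intro j
    show bits ((if v = R then ε else 0) + (if v = c (f1 j) then (1 - ε) / 2 else 0) +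
        (if v = c (f2 j) then (1 - ε) / 2 else 0)) ≤ _
    by_cases hR : v = R
    · have h1 : v ≠ c (f1 j) := by
        rw [hR]
        intro h
        cases h
      have h2 : v ≠ c (f2 j) := by
        rw [hR]
        intro h
        cases h
      rw [if_pos hR, if_neg h1, if_neg h2, add_zero, add_zero]
      omega
    · rw [if_neg hR, zero_add]
      split_ifs
      · omega
      · rw [add_zero]
        omega
      · rw [zero_add]
        omega
      · rw [add_zero]
        omega
  · intro z
    show bits 0 ≤ _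
    omega

theorem bits_reward (u : Vt n) (i : Pl n) : bits (rewardV ε u i) ≤ bound ε := by
  unfold bound
  rcases u with l | (_ | j) | z <;> rcases i with _ | i
  · show bits (if l = 0 then (1 : ℚ) else 0) ≤ _
    split_ifs <;> omega
  · show bits 0 ≤ _
    omega
  · show bits 0 ≤ _
    omega
  · show bits (rho ε) ≤ _
    omega
  · show bits 0 ≤ _
    omega
  · show bits 0 ≤ _
    omega
  · show bits 0 ≤ _
    omega
  · show bits (if z ∈ rew i.divNat i.modNat then rho ε else 0) ≤ _
    split_ifs <;> omega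

theorem size_le (n : ℕ) (ε : ℚ) : inputSize (game n ε) lo hi ε ≤
    (1000 * (1 + bound ε)) * (n + 1) ^ 2 := by
  have hV : Fintype.card (Vt n) ≤ 22 * (n + 1) := by
    simp only [Fintype.card_sum, Fintype.card_fin, Fintype.card_option, Fintype.card_prod]
    have : mm n = (n + 1) * 6 := rfl
    omega
  have hP : Fintype.card (Pl n) ≤ 7 * (n + 1) := by
    simp only [Fintype.card_fin, Fintype.card_option]
    have : mm n = (n + 1) * 6 := rfl
    omega
  have s1 : ∑ u : Vt n, ∑ v : Vt n, (1 + bits ((game n ε).prob u v)) ≤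
      (22 * (n + 1)) * ((22 * (n + 1)) * (1 + bound ε)) := by
    calc ∑ u : Vt n, ∑ v : Vt n, (1 + bits ((game n ε).prob u v))
        ≤ ∑ _u : Vt n, ∑ _v : Vt n, (1 + bound ε) := by
          apply Finset.sum_le_sum
          intro u _
          apply Finset.sum_le_sum
          intro v _
          exact Nat.add_le_add_left (bits_prob u v) 1
      _ = Fintype.card (Vt n) * (Fintype.card (Vt n) * (1 + bound ε)) := by
          simp only [Finset.sum_const, Finset.card_univ, smul_eq_mul]
      _ ≤ _ := Nat.mul_le_mul hV (Nat.mul_le_mul hV (le_refl _))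
  have s2 : ∑ u : Vt n, ∑ i : Pl n, (1 + bits ((game n ε).reward u i)) ≤
      (22 * (n + 1)) * ((7 * (n + 1)) * (1 + bound ε)) := by
    calc ∑ u : Vt n, ∑ i : Pl n, (1 + bits ((game n ε).reward u i))
        ≤ ∑ _u : Vt n, ∑ _i : Pl n, (1 + bound ε) := by
          apply Finset.sum_le_sum
          intro u _
          apply Finset.sum_le_sum
          intro i _
          exact Nat.add_le_add_left (bits_reward u i) 1
      _ = Fintype.card (Vt n) * (Fintype.card (Pl n) * (1 + bound ε)) := by
          simp only [Finset.sum_const, Finset.card_univ, smul_eq_mul]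
      _ ≤ _ := Nat.mul_le_mul hV (Nat.mul_le_mul hP (le_refl _))
  have s3 : ∑ i : Pl n, (bits (lo i) + bits (hi i)) ≤ (7 * (n + 1)) * (2 * bound ε) := by
    calc ∑ i : Pl n, (bits (lo i) + bits (hi i)) ≤ ∑ _i : Pl n, 2 * bound ε := by
          apply Finset.sum_le_sum
          intro i _
          have h1 : bits (lo i) ≤ bound ε := by
            unfold bound
            rcases i with _ | i
            · show bits 1 ≤ _
              omega
            · show bits 0 ≤ _
              omega
          have h2 : bits (hi i) ≤ bound ε := by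
            unfold bound
            show bits 1 ≤ _
            omega
          omega
      _ = Fintype.card (Pl n) * (2 * bound ε) := by
          simp only [Finset.sum_const, Finset.card_univ, smul_eq_mul]
      _ ≤ _ := Nat.mul_le_mul hP (le_refl _)
  have s4 : bits ε ≤ bound ε := by
    unfold bound
    omega
  have s5 := Nat.add_le_add (Nat.add_le_add (Nat.add_le_add s1 s2) s3) s4
  have s6 : inputSize (game n ε) lo hi ε ≤ (22 * (n + 1)) * ((22 * (n + 1)) * (1 + bound ε)) +
      (22 * (n + 1)) * ((7 * (n + 1)) * (1 + bound ε)) + (7 * (n + 1)) * (2 * bound ε) +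
      bound ε + 1 := by
    unfold inputSize
    exact Nat.add_le_add_right s5 1
  refine s6.trans ?_
  nlinarith [Nat.zero_le n, Nat.zero_le (bound ε), Nat.zero_le (n * bound ε),
    Nat.zero_le (n * n * bound ε), Nat.zero_le (n * n)]

theorem eval_mono (p : Polynomial ℕ) {a b : ℕ} (h : a ≤ b) : p.eval a ≤ p.eval b := by
  rw [Polynomial.eval_eq_sum_range, Polynomial.eval_eq_sum_range]
  apply Finset.sum_le_sum
  intro i _
  exact Nat.mul_le_mul_left _ (Nat.pow_le_pow_left h i)

theorem exists_eval_lt (q : Polynomial ℕ) : ∃ n : ℕ, q.eval n < 2 ^ n := by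
  have h : Filter.Tendsto (fun n : ℕ => ∑ i ∈ Finset.range (q.natDegree + 1),
      (q.coeff i : ℝ) * ((n : ℝ) ^ i / 2 ^ n)) Filter.atTop (nhds 0) := by
    have h0 : (0 : ℝ) = ∑ i ∈ Finset.range (q.natDegree + 1), (q.coeff i : ℝ) * 0 := by simp
    rw [h0]
    apply tendsto_finsetSum
    intro i _
    exact (tendsto_pow_const_div_const_pow_of_one_lt i (by norm_num)).const_mul _
  obtain ⟨n, hn⟩ := (h.eventually (gt_mem_nhds zero_lt_one)).exists
  refine ⟨n, ?_⟩
  have h2 : (0 : ℝ) < 2 ^ n := by positivity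
  have h3 : ((q.eval n : ℕ) : ℝ) < ((2 ^ n : ℕ) : ℝ) := by
    rw [Polynomial.eval_eq_sum_range]
    push_cast
    have h4 : ∑ i ∈ Finset.range (q.natDegree + 1), (q.coeff i : ℝ) * ((n : ℝ) ^ i / 2 ^ n) =
        (∑ i ∈ Finset.range (q.natDegree + 1), (q.coeff i : ℝ) * (n : ℝ) ^ i) / 2 ^ n := by
      rw [Finset.sum_div]
      apply Finset.sum_congr rfl
      intro i _
      ring
    rw [h4, div_lt_one h2] at hn
    exact hn
  exact_mod_cast h3

/-- **Main result (negative answer).** For every rational `0 < ε < 1` and every polynomial `p`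
there is a game `G` with payoff constraints `x`, `y` that has a stationary `ε`-equilibrium
satisfying the constraints (even one with dyadic probabilities), while no such equilibrium has
fixed-point size at most `p N`, for `N` the size of the instance. -/
theorem result : ∀ ε : ℚ, 0 < ε → ε < 1 → ∀ p : Polynomial ℕ,
    ∃ (V P : Type) (_ : Fintype V) (_ : Fintype P) (_ : DecidableEq P) (G : Game V P)
      (x y : P → ℚ), G.Valid ∧
      (∃ σ, IsEpsNE G ε σ ∧ Satisfies G x y σ ∧ ∃ L, HasFixedPointSize G σ L) ∧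
      ∀ σ, IsEpsNE G ε σ → Satisfies G x y σ → ∀ L, HasFixedPointSize G σ L →
        p.eval (inputSize G x y ε) < L := by
  intro ε h0 h1 p
  obtain ⟨n, hn⟩ := exists_eval_lt (p.comp (Polynomial.C (1000 * (1 + bound ε)) *
    (Polynomial.X + 1) ^ 2))
  refine ⟨Vt n, Pl n, inferInstance, inferInstance, inferInstance, game n ε, lo, hi,
    game_valid h0 h1, ⟨sg, sg_NE h0 h1, sg_satisfies h0 h1, 2 ^ n, sg_fixed⟩, ?_⟩
  intro σ hNE hsat L hL
  have h2 := fixed_large h0 h1 hNE hsat hL
  have h3 : p.eval (inputSize (game n ε) lo hi ε) ≤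
      (p.comp (Polynomial.C (1000 * (1 + bound ε)) * (Polynomial.X + 1) ^ 2)).eval n := by
    rw [Polynomial.eval_comp]
    apply eval_mono
    simpa using size_le n ε
  exact lt_of_le_of_lt h3 (lt_of_lt_of_le hn h2)

end Pool.Agent.Results.MP_3b7dc8_lc.NoShortFixedPoint
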